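import Mathlib

/-!
# Centerpoints, and hyperplanes through a point splitting all but one of the classes
-/

set_option autoImplicit false

namespace Pool.Agent.V11135.Sel

open Finset Function

variable {d : ℕ} {T : Type} [Fintype T] [DecidableEq T]

omit [Fintype T] in
/-- **Centerpoint theorem.** -/
theorem centerpoint (q : T → (Fin d → ℝ)) (S : Finset T) (hS : S.Nonempty) :
    ∃ c : Fin d → ℝ, ∀ u : (Fin d → ℝ) →ₗ[ℝ] ℝ,
      S.card ≤ (d + 1) * (S.filter fun t => u c ≤ u (q t)).card := by
  classical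
  set 𝒜 : Finset (Finset T) := S.powerset.filter fun A => d * S.card < (d + 1) * A.card with h𝒜
  have hH := Convex.helly_theorem' (𝕜 := ℝ) (E := Fin d → ℝ) (s := 𝒜)
    (F := fun A : Finset T => convexHull ℝ (q '' (A : Set T))) (fun A _ => convex_convexHull ℝ _) ?_
  · obtain ⟨c, hc⟩ := hH
    refine ⟨c, fun u => ?_⟩
    by_contra hlt
    push Not at hlt
    set A : Finset T := S.filter fun t => ¬ u c ≤ u (q t) with hA
    have hcard : (S.filter fun t => u c ≤ u (q t)).card + A.card = S.card :=
      Finset.card_filter_add_card_filter_not _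
    have hmem : A ∈ 𝒜 := by
      rw [h𝒜, Finset.mem_filter, Finset.mem_powerset]
      refine ⟨Finset.filter_subset _ _, ?_⟩
      nlinarith
    have hcA : c ∈ convexHull ℝ (q '' (A : Set T)) := by
      have := Set.mem_iInter₂.1 hc A hmem
      exact this
    have hsub : convexHull ℝ (q '' (A : Set T)) ⊆ {x | u x < u c} := by
      apply convexHull_min
      · rintro _ ⟨t, ht, rfl⟩
        have := (Finset.mem_filter.1 (Finset.mem_coe.1 ht)).2
        exact not_le.1 this
      · exact convex_halfSpace_lt (LinearMap.isLinear u) _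
    have hlt' : u c < u c := hsub hcA
    exact lt_irrefl _ hlt'
  · intro I hI hIcard
    rw [Module.finrank_fin_fun] at hIcard
    -- a common element of all the sets in `I`
    have hex : ∃ t ∈ S, ∀ A ∈ I, t ∈ A := by
      by_contra hno
      push Not at hno
      have hcov : S ⊆ I.biUnion fun A => S \ A := by
        intro t ht
        obtain ⟨A, hA, htA⟩ := hno t ht
        exact Finset.mem_biUnion.2 ⟨A, hA, Finset.mem_sdiff.2 ⟨ht, htA⟩⟩
      have h1 : S.card ≤ ∑ A ∈ I, (S \ A).card :=
        (Finset.card_le_card hcov).trans Finset.card_biUnion_le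
      have h2 : ∀ A ∈ I, (d + 1) * (S \ A).card < S.card := by
        intro A hA
        obtain ⟨h3, h4⟩ := Finset.mem_filter.1 (hI hA)
        rw [Finset.mem_powerset] at h3
        rw [Finset.card_sdiff_of_subset h3]
        have h5 := Finset.card_le_card h3
        zify [h5] at h4 ⊢
        nlinarith
      have h6 : (d + 1) * S.card ≤ ∑ A ∈ I, (d + 1) * (S \ A).card := by
        rw [← Finset.mul_sum]; exact Nat.mul_le_mul_left _ h1
      rcases I.eq_empty_or_nonempty with rfl | hIne
      · simp only [Finset.sum_empty] at h1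
        exact absurd hS.card_pos (by omega)
      · have h7 : ∑ A ∈ I, (d + 1) * (S \ A).card < ∑ A ∈ I, S.card :=
          Finset.sum_lt_sum_of_nonempty hIne h2
        rw [Finset.sum_const, smul_eq_mul] at h7
        have h8 : I.card * S.card ≤ (d + 1) * S.card := Nat.mul_le_mul_right _ hIcard
        omega
    obtain ⟨t, -, ht⟩ := hex
    refine ⟨q t, Set.mem_iInter₂.2 fun A hA => ?_⟩
    exact subset_convexHull ℝ _ ⟨t, Finset.mem_coe.2 (ht A hA), rfl⟩

/-- a nonzero functional vanishing on all but two of `d + 1` vectors -/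
theorem exists_functional (hd : 0 < d) (z : Fin (d + 1) → (Fin d → ℝ)) (i0 i1 : Fin (d + 1))
    (h01 : i1 ≠ i0) : ∃ u : (Fin d → ℝ) →ₗ[ℝ] ℝ, u ≠ 0 ∧ ∀ j, j ≠ i0 → j ≠ i1 → u (z j) = 0 := by
  classical
  set s : Finset (Fin d → ℝ) := (((univ : Finset (Fin (d + 1))).erase i0).erase i1).image z with hs
  have hcard : s.card < d := by
    have h1 : s.card ≤ (((univ : Finset (Fin (d + 1))).erase i0).erase i1).card :=
      Finset.card_image_le
    rw [Finset.card_erase_of_mem (Finset.mem_erase.2 ⟨h01, Finset.mem_univ _⟩),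
      Finset.card_erase_of_mem (Finset.mem_univ _), Finset.card_univ, Fintype.card_fin] at h1
    omega
  have hlt : Submodule.span ℝ (s : Set (Fin d → ℝ)) < ⊤ := by
    rw [lt_top_iff_ne_top]
    intro htop
    have h2 : Set.finrank ℝ (s : Set (Fin d → ℝ)) ≤ s.card := finrank_span_finset_le_card s
    have h3 : Set.finrank ℝ (s : Set (Fin d → ℝ)) = d := by
      unfold Set.finrank
      rw [htop, finrank_top, Module.finrank_fin_fun]
    omega
  obtain ⟨u, hu0, hu⟩ := Submodule.exists_le_ker_of_lt_top _ hlt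
  refine ⟨u, hu0, fun j h0 h1 => ?_⟩
  have : z j ∈ Submodule.span ℝ (s : Set (Fin d → ℝ)) := by
    apply Submodule.subset_span
    exact Finset.mem_coe.2 (Finset.mem_image.2 ⟨j, by simp [h0, h1], rfl⟩)
  exact LinearMap.mem_ker.1 (hu this)

/-- no hyperplane contains more than a `κ`-fraction of a class -/
def Gen (Q : Fin (d + 1) → T → (Fin d → ℝ)) (κ : ℝ) : Prop :=
  ∀ i, ∀ u : (Fin d → ℝ) →ₗ[ℝ] ℝ, u ≠ 0 → ∀ r : ℝ,
    (((univ : Finset T).filter fun t => u (Q i t) = r).card : ℝ) ≤ κ * Fintype.card T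

/-- one separation step -/
theorem separate_one (hd : 0 < d) (Q : Fin (d + 1) → T → (Fin d → ℝ)) {κ : ℝ} (hQ : Gen Q κ)
    (p : Fin d → ℝ) (S : Fin (d + 1) → Finset T) (hS : ∀ i, (S i).Nonempty)
    (hbig : ∀ i, 2 * ((d : ℝ) + 1) * (κ * Fintype.card T) ≤ (S i).card) (i0 : Fin (d + 1)) :
    ∃ S' : Fin (d + 1) → Finset T, (∀ i, S' i ⊆ S i) ∧
      (∀ i, ((S i).card : ℝ) ≤ 2 * ((d : ℝ) + 1) * (S' i).card) ∧
      ∃ u : (Fin d → ℝ) →ₗ[ℝ] ℝ, ∀ j, j ≠ i0 → ∀ t ∈ S' j, u p < u (Q j t) := by
  classical
  choose c hc using fun i => centerpoint (Q i) (S i) (hS i)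
  obtain ⟨i1, h01⟩ : ∃ i1 : Fin (d + 1), i1 ≠ i0 := by
    have : Nontrivial (Fin (d + 1)) := Fin.nontrivial_iff_two_le.2 (by omega)
    exact exists_ne i0
  obtain ⟨u, hu0, hu⟩ := exists_functional hd (fun j => c j - p) i0 i1 h01
  have huc : ∀ j, j ≠ i0 → j ≠ i1 → u (c j) = u p := by
    intro j h0 h1
    have := hu j h0 h1
    rw [map_sub] at this
    linarith
  -- orient `u` so that half of the class `i1` is on the nonnegative side
  have hw : ∃ w : (Fin d → ℝ) →ₗ[ℝ] ℝ, w ≠ 0 ∧ (∀ j, j ≠ i0 → j ≠ i1 → w (c j) = w p) ∧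
      (S i1).card ≤ 2 * ((S i1).filter fun t => w p ≤ w (Q i1 t)).card := by
    have h1 : (S i1).card ≤ ((S i1).filter fun t => u p ≤ u (Q i1 t)).card +
        ((S i1).filter fun t => (-u) p ≤ (-u) (Q i1 t)).card := by
      rw [← Finset.card_union_add_card_inter, ← Finset.filter_or]
      refine le_trans (Finset.card_le_card ?_) (Nat.le_add_right _ _)
      intro t ht
      refine Finset.mem_filter.2 ⟨ht, ?_⟩
      rcases le_total (u p) (u (Q i1 t)) with h | h
      · exact Or.inl h
      · exact Or.inr (by simpa using h)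
    rcases le_total ((S i1).filter fun t => (-u) p ≤ (-u) (Q i1 t)).card
      ((S i1).filter fun t => u p ≤ u (Q i1 t)).card with h | h
    · exact ⟨u, hu0, huc, by omega⟩
    · exact ⟨-u, neg_ne_zero.2 hu0, fun j h0 h1 => by
        rw [LinearMap.neg_apply, LinearMap.neg_apply, huc j h0 h1], by omega⟩
  obtain ⟨w, hw0, hwc, hwi⟩ := hw
  refine ⟨fun j => if j = i0 then S j else (S j).filter fun t => w p < w (Q j t), ?_, ?_, w, ?_⟩
  · intro i
    dsimp only
    split_ifs
    · exact Finset.Subset.refl _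
    · exact Finset.filter_subset _ _
  · intro i
    dsimp only
    have hd1 : (1 : ℝ) ≤ d := by exact_mod_cast hd
    have hs0 : (0 : ℝ) ≤ (S i).card := Nat.cast_nonneg _
    split_ifs with h
    · nlinarith
    · -- half-space through `p` contains a `1 / (d + 1)` fraction
      have h1 : (S i).card ≤ (d + 1) * ((S i).filter fun t => w p ≤ w (Q i t)).card := by
        by_cases hi1 : i = i1
        · subst hi1
          refine hwi.trans (Nat.mul_le_mul_right _ (by omega))
        · have := hc i w
          rwa [hwc i h hi1] at this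
      have h2 : ((S i).filter fun t => w p ≤ w (Q i t)).card ≤
          ((S i).filter fun t => w p < w (Q i t)).card +
            ((univ : Finset T).filter fun t => w (Q i t) = w p).card := by
        refine le_trans (Finset.card_le_card ?_) (Finset.card_union_le _ _)
        intro t ht
        obtain ⟨h3, h4⟩ := Finset.mem_filter.1 ht
        rw [Finset.mem_union, Finset.mem_filter, Finset.mem_filter]
        rcases h4.lt_or_eq with h5 | h5
        · exact Or.inl ⟨h3, h5⟩
        · exact Or.inr ⟨Finset.mem_univ _, h5.symm⟩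
      have h3 := hQ i w hw0 (w p)
      have h4 := hbig i
      have h1' : ((S i).card : ℝ) ≤ ((d : ℝ) + 1) *
          ((S i).filter fun t => w p ≤ w (Q i t)).card := by exact_mod_cast h1
      have h2' : (((S i).filter fun t => w p ≤ w (Q i t)).card : ℝ) ≤
          ((S i).filter fun t => w p < w (Q i t)).card +
            ((univ : Finset T).filter fun t => w (Q i t) = w p).card := by exact_mod_cast h2
      have h5 : ((d : ℝ) + 1) * ((S i).filter fun t => w p ≤ w (Q i t)).card ≤
          ((d : ℝ) + 1) * (((S i).filter fun t => w p < w (Q i t)).card +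
            κ * Fintype.card T) := mul_le_mul_of_nonneg_left (h2'.trans (by linarith)) (by positivity)
      have h6 : ((d : ℝ) + 1) * (((S i).filter fun t => w p < w (Q i t)).card +
            κ * Fintype.card T) = ((d : ℝ) + 1) * ((S i).filter fun t => w p < w (Q i t)).card +
            ((d : ℝ) + 1) * (κ * Fintype.card T) := by ring
      have h7 : 2 * ((d : ℝ) + 1) * (κ * Fintype.card T) =
        2 * (((d : ℝ) + 1) * (κ * Fintype.card T)) := by ring
      have h8 : 2 * ((d : ℝ) + 1) * (((S i).filter fun t => w p < w (Q i t)).card : ℝ) =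
        2 * (((d : ℝ) + 1) * ((S i).filter fun t => w p < w (Q i t)).card) := by ring
      rw [h8]
      linarith
  · intro j hj t ht
    dsimp only at ht
    rw [if_neg hj] at ht
    exact (Finset.mem_filter.1 ht).2

/-- all the separation steps -/
theorem separate (hd : 0 < d) (Q : Fin (d + 1) → T → (Fin d → ℝ)) {κ : ℝ} (hQ : Gen Q κ)
    (p : Fin d → ℝ) (S : Fin (d + 1) → Finset T) (hS : ∀ i, (S i).Nonempty)
    (hbig : ∀ i, (2 * ((d : ℝ) + 1)) ^ (d + 1) * (κ * Fintype.card T) ≤ (S i).card)
    (F : Finset (Fin (d + 1))) :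
    ∃ S' : Fin (d + 1) → Finset T, (∀ i, S' i ⊆ S i) ∧
      (∀ i, ((S i).card : ℝ) ≤ (2 * ((d : ℝ) + 1)) ^ F.card * (S' i).card) ∧
      ∀ i0 ∈ F, ∃ u : (Fin d → ℝ) →ₗ[ℝ] ℝ, ∀ j, j ≠ i0 → ∀ t ∈ S' j, u p < u (Q j t) := by
  classical
  induction F using Finset.induction_on with
  | empty => exact ⟨S, fun i => Finset.Subset.refl _, fun i => by simp, by simp⟩
  | insert i0 F hi0 ih =>
    obtain ⟨S1, h1, h2, h3⟩ := ih
    have hD : (0 : ℝ) < 2 * ((d : ℝ) + 1) := by positivity
    have hS1 : ∀ i, (S1 i).Nonempty := by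
      intro i
      rw [← Finset.card_pos]
      by_contra hc
      have hc' : (S1 i).card = 0 := by omega
      have := h2 i
      rw [hc', Nat.cast_zero, mul_zero] at this
      have h4 : (0 : ℝ) < (S i).card := by exact_mod_cast (hS i).card_pos
      linarith
    have hFle : F.card ≤ d := by
      have h4 : (insert i0 F).card ≤ (univ : Finset (Fin (d + 1))).card :=
        Finset.card_le_card (Finset.subset_univ _)
      rw [Finset.card_insert_of_notMem hi0, Finset.card_univ, Fintype.card_fin] at h4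
      omega
    have hbig1 : ∀ i, 2 * ((d : ℝ) + 1) * (κ * Fintype.card T) ≤ (S1 i).card := by
      intro i
      have h4 := (hbig i).trans (h2 i)
      have h5 : (2 * ((d : ℝ) + 1)) ^ (d + 1) =
          (2 * ((d : ℝ) + 1)) ^ F.card * (2 * ((d : ℝ) + 1)) ^ (d + 1 - F.card) := by
        rw [← pow_add]; congr 1; omega
      rw [h5, mul_assoc] at h4
      have h6 := le_of_mul_le_mul_left h4 (pow_pos hD _)
      refine le_trans ?_ h6
      rcases le_total 0 (κ * (Fintype.card T : ℝ)) with h0 | h0
      · apply mul_le_mul_of_nonneg_right _ h0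
        have h7 : (1 : ℝ) ≤ 2 * ((d : ℝ) + 1) := by
          have : (0 : ℝ) ≤ d := Nat.cast_nonneg _
          linarith
        calc 2 * ((d : ℝ) + 1) = (2 * ((d : ℝ) + 1)) ^ 1 := (pow_one _).symm
          _ ≤ _ := pow_le_pow_right₀ h7 (by omega)
      · -- κ is nonnegative
        have h8 : 0 ≤ κ * (Fintype.card T : ℝ) := by
          obtain ⟨w, hw⟩ : ∃ w : (Fin d → ℝ) →ₗ[ℝ] ℝ, w ≠ 0 := by
            obtain ⟨u, hu, -⟩ := exists_functional hd (fun _ => (0 : Fin d → ℝ)) 0 1 (by
              have : Nontrivial (Fin (d + 1)) := Fin.nontrivial_iff_two_le.2 (by omega)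
              intro h
              have := congrArg Fin.val h
              rw [Fin.val_zero] at this
              have h9 : (1 : Fin (d + 1)).val = 1 := by
                rw [Fin.val_one']
                exact Nat.mod_eq_of_lt (by omega)
              omega)
            exact ⟨u, hu⟩
          exact le_trans (Nat.cast_nonneg _) (hQ i w hw 0)
        have h9 : κ * (Fintype.card T : ℝ) = 0 := le_antisymm h0 h8
        rw [h9]; simp
    obtain ⟨S2, k1, k2, u, k3⟩ := separate_one hd Q hQ p S1 hS1 hbig1 i0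
    refine ⟨S2, fun i => (k1 i).trans (h1 i), fun i => ?_, ?_⟩
    · rw [Finset.card_insert_of_notMem hi0, pow_succ]
      calc ((S i).card : ℝ) ≤ (2 * ((d : ℝ) + 1)) ^ F.card * (S1 i).card := h2 i
        _ ≤ (2 * ((d : ℝ) + 1)) ^ F.card * (2 * ((d : ℝ) + 1) * (S2 i).card) :=
          mul_le_mul_of_nonneg_left (k2 i) (pow_nonneg hD.le _)
        _ = _ := by ring
    · intro i hi
      rcases Finset.mem_insert.1 hi with rfl | hi
      · exact ⟨u, k3⟩
      · obtain ⟨v, hv⟩ := h3 i hi
        exact ⟨v, fun j hj t ht => hv j hj t (k1 j ht)⟩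

end Pool.Agent.V11135.Sel
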