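import Pool.Agent.V11135.Sel.Limit
import Pool.Agent.V11135.Sel.Center

/-!
# From one simplex containing the point to all simplices of a box
-/

set_option autoImplicit false

namespace Pool.Agent.V11135.Sel

open Finset Function

variable {d : ℕ}

theorem hull_weights (v : Fin (d + 1) → (Fin d → ℝ)) (p : Fin d → ℝ)
    (h : p ∈ convexHull ℝ (Set.range v)) :
    ∃ l : Fin (d + 1) → ℝ, (∀ j, 0 ≤ l j) ∧ ∑ j, l j = 1 ∧ ∑ j, l j • v j = p := by
  classical
  have hsub : convexHull ℝ (Set.range v) ⊆
      {p | ∃ l : Fin (d + 1) → ℝ, (∀ j, 0 ≤ l j) ∧ ∑ j, l j = 1 ∧ ∑ j, l j • v j = p} := by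
    apply convexHull_min
    · rintro _ ⟨j, rfl⟩
      refine ⟨Pi.single j 1, fun k => ?_, by simp, ?_⟩
      · by_cases hk : k = j
        · subst hk; simp
        · simp [hk]
      · rw [Finset.sum_eq_single j]
        · simp
        · intro k _ hk; simp [hk]
        · simp
    · rintro x ⟨l, hl0, hl1, rfl⟩ y ⟨m, hm0, hm1, rfl⟩ a b ha hb hab
      refine ⟨fun j => a * l j + b * m j, fun j => ?_, ?_, ?_⟩
      · have := mul_nonneg ha (hl0 j)
        have := mul_nonneg hb (hm0 j)
        linarith
      · rw [Finset.sum_add_distrib, ← Finset.mul_sum, ← Finset.mul_sum, hl1, hm1]; linarith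
      · rw [Finset.smul_sum, Finset.smul_sum, ← Finset.sum_add_distrib]
        refine Finset.sum_congr rfl fun j _ => ?_
        rw [add_smul, mul_smul, mul_smul]
  exact hsub h

theorem weights_hull (v : Fin (d + 1) → (Fin d → ℝ)) (p : Fin d → ℝ) (m : Fin (d + 1) → ℝ)
    (hm0 : ∀ j, 0 ≤ m j) (hm1 : ∃ j, m j ≠ 0) (hm : ∑ j, m j • (v j - p) = 0) :
    p ∈ convexHull ℝ (Set.range v) := by
  have hpos : 0 < ∑ j, m j := by
    obtain ⟨j, hj⟩ := hm1
    exact Finset.sum_pos' (fun k _ => hm0 k) ⟨j, Finset.mem_univ _, lt_of_le_of_ne (hm0 j) hj.symm⟩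
  have h1 : ∑ j, m j • v j = (∑ j, m j) • p := by
    have : ∑ j, m j • (v j - p) = ∑ j, m j • v j - (∑ j, m j) • p := by
      rw [Finset.sum_smul, ← Finset.sum_sub_distrib]
      exact Finset.sum_congr rfl fun j _ => smul_sub _ _ _
    rw [this] at hm
    exact sub_eq_zero.1 hm
  refine mem_convexHull_of_exists_fintype (fun j => m j / ∑ k, m k) v
    (fun j => div_nonneg (hm0 j) hpos.le) ?_ (fun j => ⟨j, rfl⟩) ?_
  · rw [← Finset.sum_div, div_self hpos.ne']
  · have : ∑ j, (m j / ∑ k, m k) • v j = (∑ k, m k)⁻¹ • ∑ j, m j • v j := by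
      rw [Finset.smul_sum]
      refine Finset.sum_congr rfl fun j _ => ?_
      rw [← mul_smul, div_eq_inv_mul]
    rw [this, h1, ← mul_smul, inv_mul_cancel₀ hpos.ne', one_smul]

/-- the core of the transfer -/
theorem core (z : Fin (d + 1) → (Fin d → ℝ)) (w : Fin d → ℝ) (i : Fin (d + 1))
    (l : Fin (d + 1) → ℝ) (hl : ∀ j, 0 < l j) (hlz : ∑ j, l j • z j = 0)
    (hu : ∀ i0, ∃ u : (Fin d → ℝ) →ₗ[ℝ] ℝ, (∀ j, j ≠ i0 → 0 < u (z j)) ∧ (i ≠ i0 → 0 < u w))
    (m : Fin (d + 1) → ℝ) (hmi : 0 ≤ m i) (hmz : ∑ j, m j • update z i w j = 0) :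
    ∀ j, 0 ≤ m j := by
  classical
  by_contra hneg
  push Not at hneg
  obtain ⟨j1, hj1⟩ := hneg
  set B : Finset (Fin (d + 1)) := univ.filter fun j => m j < 0 with hB
  have hBne : B.Nonempty := ⟨j1, by rw [hB, Finset.mem_filter]; exact ⟨Finset.mem_univ _, hj1⟩⟩
  obtain ⟨js, hjs, hmin⟩ := Finset.exists_min_image B (fun j => l j / (l j - m j)) hBne
  have hjs' : m js < 0 := (Finset.mem_filter.1 hjs).2
  have hsi : i ≠ js := by rintro rfl; linarith
  set t : ℝ := l js / (l js - m js) with ht
  have hden : 0 < l js - m js := by have := hl js; linarith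
  have ht0 : 0 < t := div_pos (hl js) hden
  have ht1 : t < 1 := by
    rw [ht, div_lt_one hden]; linarith
  have hcoef : ∀ j, 0 ≤ (1 - t) * l j + t * m j := by
    intro j
    by_cases hj : m j < 0
    · have h1 : t ≤ l j / (l j - m j) := hmin j (Finset.mem_filter.2 ⟨Finset.mem_univ _, hj⟩)
      have h2 : 0 < l j - m j := by have := hl j; linarith
      rw [le_div_iff₀ h2] at h1
      nlinarith
    · push Not at hj
      have := mul_nonneg (sub_nonneg.2 ht1.le) (hl j).le
      have := mul_nonneg ht0.le hj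
      linarith
  have hzero : (1 - t) * l js + t * m js = 0 := by
    have : t * (l js - m js) = l js := by rw [ht]; field_simp
    linarith
  obtain ⟨u, hu1, hu2⟩ := hu js
  -- apply `u` to the combination of the relations
  have e1 : ∑ j, l j * u (z j) = 0 := by
    have := congrArg u hlz
    rw [map_sum, map_zero] at this
    simpa using this
  have e2 : ∑ j, m j * u (update z i w j) = 0 := by
    have := congrArg u hmz
    rw [map_sum, map_zero] at this
    simpa using this
  have e3 : ∑ j, ((1 - t) * (l j * u (z j)) + t * (m j * u (update z i w j))) = 0 := by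
    rw [Finset.sum_add_distrib, ← Finset.mul_sum, ← Finset.mul_sum, e1, e2]; ring
  have hpos : 0 < ∑ j, ((1 - t) * (l j * u (z j)) + t * (m j * u (update z i w j))) := by
    apply Finset.sum_pos'
    · intro j _
      by_cases hji : j = i
      · subst hji
        rw [update_self]
        have h1 := hu1 j hsi
        have h2 := hu2 hsi
        have h3 : 0 ≤ (1 - t) * (l j * u (z j)) :=
          mul_nonneg (sub_nonneg.2 ht1.le) (mul_nonneg (hl j).le h1.le)
        have h4 : 0 ≤ t * (m j * u w) := mul_nonneg ht0.le (mul_nonneg hmi h2.le)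
        linarith
      · rw [update_of_ne hji]
        have h5 : (1 - t) * (l j * u (z j)) + t * (m j * u (z j)) =
          ((1 - t) * l j + t * m j) * u (z j) := by ring
        rw [h5]
        by_cases hjs2 : j = js
        · subst hjs2; rw [hzero, zero_mul]
        · exact mul_nonneg (hcoef j) (hu1 j hjs2).le
    · refine ⟨i, Finset.mem_univ _, ?_⟩
      rw [update_self]
      have h1 := hu1 i hsi
      have h2 := hu2 hsi
      have h3 : 0 < (1 - t) * (l i * u (z i)) :=
        mul_pos (sub_pos.2 ht1) (mul_pos (hl i) h1)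
      have h4 : 0 ≤ t * (m i * u w) := mul_nonneg ht0.le (mul_nonneg hmi h2.le)
      linarith
  linarith

/-- changing one vertex -/
theorem transfer_one (v : Fin (d + 1) → (Fin d → ℝ)) (p w : Fin d → ℝ) (i : Fin (d + 1))
    (h : p ∈ convexHull ℝ (Set.range v))
    (hu : ∀ i0, ∃ u : (Fin d → ℝ) →ₗ[ℝ] ℝ, (∀ j, j ≠ i0 → u p < u (v j)) ∧
      (i ≠ i0 → u p < u w)) :
    p ∈ convexHull ℝ (Set.range (update v i w)) := by
  classical
  obtain ⟨l, hl0, hl1, hl⟩ := hull_weights v p h
  have hlz : ∑ j, l j • (v j - p) = 0 := by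
    have : ∑ j, l j • (v j - p) = ∑ j, l j • v j - (∑ j, l j) • p := by
      rw [Finset.sum_smul, ← Finset.sum_sub_distrib]
      exact Finset.sum_congr rfl fun j _ => smul_sub _ _ _
    rw [this, hl, hl1, one_smul, sub_self]
  have hu' : ∀ i0, ∃ u : (Fin d → ℝ) →ₗ[ℝ] ℝ, (∀ j, j ≠ i0 → 0 < u (v j - p)) ∧
      (i ≠ i0 → 0 < u (w - p)) := by
    intro i0
    obtain ⟨u, h1, h2⟩ := hu i0
    refine ⟨u, fun j hj => ?_, fun hi => ?_⟩
    · rw [map_sub]; exact sub_pos.2 (h1 j hj)
    · rw [map_sub]; exact sub_pos.2 (h2 hi)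
  -- all weights are positive
  have hlpos : ∀ j, 0 < l j := by
    intro i0
    refine lt_of_le_of_ne (hl0 i0) fun h0 => ?_
    obtain ⟨u, h1, -⟩ := hu' i0
    have e1 : ∑ j, l j * u (v j - p) = 0 := by
      have := congrArg u hlz
      rw [map_sum, map_zero] at this
      simpa only [map_smul, smul_eq_mul] using this
    have e2 : ∀ j, l j = 0 := by
      intro j
      by_cases hj : j = i0
      · rw [hj]; exact h0.symm
      · have h2 := (Finset.sum_eq_zero_iff_of_nonneg (fun k _ => ?_)).1 e1 j (Finset.mem_univ _)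
        · rcases mul_eq_zero.1 h2 with h3 | h3
          · exact h3
          · exact absurd h3 (h1 j hj).ne'
        · by_cases hk : k = i0
          · rw [hk, ← h0, zero_mul]
          · exact mul_nonneg (hl0 k) (h1 k hk).le
    rw [Finset.sum_eq_zero fun j _ => e2 j] at hl1
    exact zero_ne_one hl1
  -- a nontrivial relation
  set z : Fin (d + 1) → (Fin d → ℝ) := fun j => v j - p with hz
  have hdep : ¬ LinearIndependent ℝ (update z i (w - p)) := by
    intro hli
    have h1 := hli.fintype_card_le_finrank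
    rw [Fintype.card_fin, Module.finrank_fin_fun] at h1
    omega
  rw [Fintype.not_linearIndependent_iff] at hdep
  obtain ⟨m, hm, j0, hj0⟩ := hdep
  have hupd : ∀ j, update v i w j - p = update z i (w - p) j := by
    intro j
    by_cases hj : j = i
    · subst hj; simp
    · simp [update_of_ne hj, hz]
  have fin : ∀ m : Fin (d + 1) → ℝ, 0 ≤ m i → m j0 ≠ 0 → ∑ j, m j • update z i (w - p) j = 0 →
      p ∈ convexHull ℝ (Set.range (update v i w)) := by
    intro m hmi hm0 hm
    have h1 := core z (w - p) i l hlpos hlz hu' m hmi hm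
    refine weights_hull _ p m h1 ⟨j0, hm0⟩ ?_
    rw [← hm]
    exact Finset.sum_congr rfl fun j _ => by rw [hupd j]
  rcases le_total 0 (m i) with h1 | h1
  · exact fin m h1 hj0 hm
  · refine fin (-m) (by simpa using h1) (by simpa using hj0) ?_
    have : ∑ j, (-m) j • update z i (w - p) j = -∑ j, m j • update z i (w - p) j := by
      rw [← Finset.sum_neg_distrib]
      exact Finset.sum_congr rfl fun j _ => by rw [Pi.neg_apply, neg_smul]
    rw [this, hm, neg_zero]

variable {T : Type}

/-- from one tuple of a separated box to all tuples -/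
theorem transfer_box (Q : Fin (d + 1) → T → (Fin d → ℝ)) (S : Fin (d + 1) → Finset T)
    (p : Fin d → ℝ)
    (hu : ∀ i0, ∃ u : (Fin d → ℝ) →ₗ[ℝ] ℝ, ∀ j, j ≠ i0 → ∀ t ∈ S j, u p < u (Q j t))
    (a0 : Fin (d + 1) → T) (ha0 : ∀ i, a0 i ∈ S i) (h : p ∈ hull Q a0)
    (a : Fin (d + 1) → T) (ha : ∀ i, a i ∈ S i) : p ∈ hull Q a := by
  classical
  have key : ∀ F : Finset (Fin (d + 1)), p ∈ hull Q (F.piecewise a a0) := by
    intro F
    induction F using Finset.induction_on with
    | empty => simpa using h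
    | insert i F hi ih =>
      rw [Finset.piecewise_insert]
      have h1 : (fun j => Q j (update (F.piecewise a a0) i (a i) j)) =
          update (fun j => Q j (F.piecewise a a0 j)) i (Q i (a i)) := by
        funext j
        by_cases hj : j = i
        · subst hj; simp
        · simp [update_of_ne hj]
      unfold hull
      rw [h1]
      apply transfer_one _ _ _ _ ih
      intro i0
      obtain ⟨u, hu⟩ := hu i0
      refine ⟨u, fun j hj => hu j hj _ ?_, fun hi0 => hu i hi0 _ (ha i)⟩
      by_cases hjF : j ∈ F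
      · rw [Finset.piecewise_eq_of_mem _ _ _ hjF]; exact ha j
      · rw [Finset.piecewise_eq_of_notMem _ _ _ hjF]; exact ha0 j
  have := key univ
  rwa [Finset.piecewise_univ] at this

end Pool.Agent.V11135.Sel
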