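import Pool.Agent.V11135.Sel.Regular
import Pool.Agent.V11135.Sel.Transfer

/-!
# Homogeneous selection for indexed families
-/

set_option autoImplicit false

namespace Pool.Agent.V11135.Sel

open Finset Function

variable {d : ℕ}

/-- homogeneous selection in general position -/
theorem gen_selection (hd : 0 < d) : ∃ c κ : ℝ, 0 < c ∧ 0 < κ ∧
    ∀ (T : Type) [Fintype T] [Nonempty T] (Q : Fin (d + 1) → T → (Fin d → ℝ)), Gen Q κ →
      ∃ S : Fin (d + 1) → Finset T, (∀ i, c * Fintype.card T ≤ (S i).card) ∧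
        ∃ p : Fin d → ℝ, ∀ a : Fin (d + 1) → T, (∀ i, a i ∈ S i) → p ∈ hull Q a := by
  have hd1 : (1 : ℝ) ≤ d := by exact_mod_cast hd
  set D : ℝ := 2 * ((d : ℝ) + 1) with hD
  have hD4 : 4 ≤ D := by rw [hD]; linarith
  have hD0 : 0 < D := by linarith
  set ε : ℝ := (D ^ (d + 1))⁻¹ with hε
  have hDp : 0 < D ^ (d + 1) := pow_pos hD0 _
  have hε0 : 0 < ε := inv_pos.2 hDp
  have hεD : D ^ (d + 1) * ε = 1 := mul_inv_cancel₀ hDp.ne'
  have hε4 : ε ≤ 1 / 4 := by
    rw [hε, one_div]
    apply inv_anti₀ (by norm_num)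
    calc (4 : ℝ) ≤ D := hD4
      _ = D ^ 1 := (pow_one D).symm
      _ ≤ D ^ (d + 1) := pow_le_pow_right₀ (by linarith) (by omega)
  set R : ℝ := (((3 ^ d) ^ d : ℕ) : ℝ) with hR
  have hR0 : 0 < R := by rw [hR]; exact Nat.cast_pos.2 (by positivity)
  obtain ⟨K, hK⟩ := pow_unbounded_of_one_lt R
    (show (1 : ℝ) < 1 + ε ^ Fintype.card (Fin (d + 1)) by
      have := pow_pos hε0 (Fintype.card (Fin (d + 1))); linarith)
  refine ⟨ε ^ (K + 1), ε ^ (K + 1), pow_pos hε0 _, pow_pos hε0 _, ?_⟩
  intro T _ _ Q hQ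
  classical
  obtain ⟨A, hA, p, hp⟩ := selection hd Q
  have hcardT : 0 < (Fintype.card T : ℝ) := by exact_mod_cast Fintype.card_pos
  obtain ⟨S', -, hS2, hS3, hS4⟩ := exists_regular A ε hε0 hε4 K R⁻¹ (inv_pos.2 hR0)
    (by rw [inv_mul_eq_div, one_lt_div hR0]; exact hK) (fun _ => univ)
    (fun _ => Finset.univ_nonempty) (by
      have h1 : inBox A (fun _ : Fin (d + 1) => (univ : Finset T)) = A := by
        ext a; simp [mem_inBox]
      rw [h1, Finset.prod_const, Finset.card_univ, Finset.card_univ, Fintype.card_fin,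
        inv_mul_le_iff₀ hR0, hR]
      exact_mod_cast hA)
  have hS3' : ∀ i, ε ^ K * Fintype.card T ≤ (S' i).card := by
    intro i
    have := hS3 i
    rwa [Finset.card_univ] at this
  obtain ⟨S'', h1, h2, h3⟩ := separate hd Q hQ p S' hS2 (fun i => by
    have h4 : D ^ (d + 1) * (ε ^ (K + 1) * Fintype.card T) = ε ^ K * Fintype.card T := by
      rw [pow_succ]
      calc D ^ (d + 1) * (ε ^ K * ε * Fintype.card T)
          = (D ^ (d + 1) * ε) * (ε ^ K * Fintype.card T) := by ring
        _ = _ := by rw [hεD, one_mul]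
    rw [h4]; exact hS3' i) univ
  have h2' : ∀ i, ε * (S' i).card ≤ (S'' i).card := by
    intro i
    have h4 := h2 i
    rw [Finset.card_univ, Fintype.card_fin] at h4
    rw [hε, inv_mul_le_iff₀ hDp]
    exact h4
  obtain ⟨a0, ha0, ha0'⟩ := hS4 S'' h1 h2'
  refine ⟨S'', fun i => ?_, p, fun a ha => ?_⟩
  · calc ε ^ (K + 1) * Fintype.card T = ε * (ε ^ K * Fintype.card T) := by ring
      _ ≤ ε * (S' i).card := mul_le_mul_of_nonneg_left (hS3' i) hε0.le
      _ ≤ _ := h2' i
  · exact transfer_box Q S'' p (fun i0 => h3 i0 (Finset.mem_univ _)) a0 ha0' (hp a0 ha0) a ha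

theorem moment_count (M : ℕ) (a : Fin d → ℝ) (ha : a ≠ 0) (s : ℝ) :
    ((univ : Finset (Fin M)).filter fun k : Fin M =>
      s + ∑ j : Fin d, a j * ((k.val : ℝ)) ^ (j.val + 1) = 0).card ≤ d := by
  classical
  set P : Polynomial ℝ := Polynomial.C s +
    ∑ j : Fin d, Polynomial.C (a j) * Polynomial.X ^ (j.val + 1) with hP
  have hcoeff : ∀ j : Fin d, P.coeff (j.val + 1) = a j := by
    intro j
    rw [hP, Polynomial.coeff_add, Polynomial.coeff_C, if_neg (by omega), zero_add,
      Polynomial.finsetSum_coeff, Finset.sum_eq_single j]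
    · simp
    · intro k _ hk
      rw [Polynomial.coeff_C_mul_X_pow, if_neg]
      intro h
      exact hk (Fin.ext (by omega))
    · simp
  have hP0 : P ≠ 0 := by
    intro h0
    apply ha
    funext j
    rw [← hcoeff j, h0]; simp
  have hdeg : P.natDegree ≤ d := by
    rw [hP]
    refine (Polynomial.natDegree_add_le _ _).trans (max_le (by simp) ?_)
    apply Polynomial.natDegree_sum_le_of_forall_le
    intro j _
    refine (Polynomial.natDegree_C_mul_X_pow_le _ _).trans ?_
    have := j.isLt; omega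
  have hle : (((univ : Finset (Fin M)).filter fun k : Fin M =>
      s + ∑ j : Fin d, a j * ((k.val : ℝ)) ^ (j.val + 1) = 0).image
        fun k : Fin M => (k.val : ℝ)) ⊆ P.roots.toFinset := by
    intro x hx
    obtain ⟨k, hk, rfl⟩ := Finset.mem_image.1 hx
    rw [Multiset.mem_toFinset, Polynomial.mem_roots hP0, Polynomial.IsRoot.def, hP,
      Polynomial.eval_add, Polynomial.eval_C, Polynomial.eval_finsetSum]
    simpa using (Finset.mem_filter.1 hk).2
  rw [← Finset.card_image_of_injective _ (f := fun k : Fin M => (k.val : ℝ))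
    (fun x y hxy => Fin.ext (by dsimp only at hxy; exact_mod_cast hxy))]
  calc _ ≤ P.roots.toFinset.card := Finset.card_le_card hle
    _ ≤ Multiset.card P.roots := Multiset.toFinset_card_le _
    _ ≤ P.natDegree := Polynomial.card_roots' P
    _ ≤ d := hdeg

/-- the perturbed family is in general position -/
theorem gen_copies {T : Type} [Fintype T] [Nonempty T] (Q : Fin (d + 1) → T → (Fin d → ℝ))
    (M : ℕ) (κ δ : ℝ) (hδ : 0 < δ) (hM : (d : ℝ) ≤ κ * M) :
    Gen (T := T × Fin M) (fun i x => Q i x.1 + δ • fun j : Fin d => ((x.2.val : ℝ)) ^ (j.val + 1))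
      κ := by
  classical
  intro i u hu r
  set a : Fin d → ℝ := fun j => δ * u (fun k => if j = k then 1 else 0) with ha
  have ha0 : a ≠ 0 := by
    intro h0
    apply hu
    have h1 : ∀ j, u (fun k => if j = k then 1 else 0) = 0 := by
      intro j
      have := congrFun h0 j
      rw [ha] at this
      simpa [hδ.ne'] using this
    refine LinearMap.ext fun x => ?_
    rw [LinearMap.pi_apply_eq_sum_univ u x, LinearMap.zero_apply]
    exact Finset.sum_eq_zero fun j _ => by rw [h1 j, smul_zero]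
  have hval : ∀ x : T × Fin M,
      u (Q i x.1 + δ • fun j : Fin d => ((x.2.val : ℝ)) ^ (j.val + 1)) - r =
        (u (Q i x.1) - r) + ∑ j : Fin d, a j * ((x.2.val : ℝ)) ^ (j.val + 1) := by
    intro x
    rw [map_add, map_smul, LinearMap.pi_apply_eq_sum_univ u
      (fun j : Fin d => ((x.2.val : ℝ)) ^ (j.val + 1)), smul_eq_mul, Finset.mul_sum]
    have : ∀ j : Fin d, δ * (((x.2.val : ℝ)) ^ (j.val + 1) • u (fun k => if j = k then 1 else 0)) =
        a j * ((x.2.val : ℝ)) ^ (j.val + 1) := by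
      intro j; rw [ha, smul_eq_mul]; ring
    rw [Finset.sum_congr rfl fun j _ => this j]
    ring
  have hcount : ((univ : Finset (T × Fin M)).filter fun x =>
      u (Q i x.1 + δ • fun j : Fin d => ((x.2.val : ℝ)) ^ (j.val + 1)) = r).card ≤
      d * (univ : Finset T).card := by
    apply Finset.card_le_mul_card_image_of_maps_to (f := Prod.fst) (fun x _ => Finset.mem_univ _)
    intro t _
    refine le_trans ?_ (moment_count M a ha0 (u (Q i t) - r))
    rw [← Finset.card_image_of_injOn (f := Prod.snd)]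
    · apply Finset.card_le_card
      intro k hk
      obtain ⟨x, hx, rfl⟩ := Finset.mem_image.1 hk
      obtain ⟨hx1, hx2⟩ := Finset.mem_filter.1 hx
      have hx3 := (Finset.mem_filter.1 hx1).2
      refine Finset.mem_filter.2 ⟨Finset.mem_univ _, ?_⟩
      have h1 := hval x
      rw [hx3, sub_self, hx2] at h1
      exact h1.symm
    · intro x hx y hy hxy
      have h1 := (Finset.mem_filter.1 (Finset.mem_coe.1 hx)).2
      have h2 := (Finset.mem_filter.1 (Finset.mem_coe.1 hy)).2
      exact Prod.ext (h1.trans h2.symm) hxy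
  have h1 : (((univ : Finset (T × Fin M)).filter fun x =>
      u (Q i x.1 + δ • fun j : Fin d => ((x.2.val : ℝ)) ^ (j.val + 1)) = r).card : ℝ) ≤
      d * Fintype.card T := by
    rw [Finset.card_univ] at hcount
    exact_mod_cast hcount
  refine h1.trans ?_
  rw [Fintype.card_prod, Fintype.card_fin, Nat.cast_mul]
  have h2 : (0 : ℝ) ≤ Fintype.card T := Nat.cast_nonneg _
  nlinarith

/-- **Homogeneous selection for indexed families.** -/
theorem box_selection (hd : 0 < d) : ∃ c : ℝ, 0 < c ∧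
    ∀ (T : Type) [Fintype T] [Nonempty T] (Q : Fin (d + 1) → T → (Fin d → ℝ)),
      ∃ S : Fin (d + 1) → Finset T, (∀ i, c * Fintype.card T ≤ (S i).card) ∧
        ∃ p : Fin d → ℝ, ∀ a : Fin (d + 1) → T, (∀ i, a i ∈ S i) → p ∈ hull Q a := by
  obtain ⟨c, κ, hc, hκ, hmain⟩ := gen_selection hd
  refine ⟨c, hc, ?_⟩
  intro T _ _ Q
  classical
  obtain ⟨M, hM⟩ := exists_nat_gt ((d : ℝ) / κ)
  have hM' : (d : ℝ) ≤ κ * M := by
    rw [div_lt_iff₀ hκ] at hM; linarith
  have hM0 : 0 < M := by
    have h1 : (0 : ℝ) ≤ (d : ℝ) / κ := div_nonneg (Nat.cast_nonneg _) hκ.le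
    have h2 : (0 : ℝ) < M := lt_of_le_of_lt h1 hM
    exact_mod_cast h2
  have : Nonempty (Fin M) := ⟨⟨0, hM0⟩⟩
  have hlim := exists_limit Q (fun A => ∃ S : Fin (d + 1) → Finset T,
    (∀ i, c * Fintype.card T ≤ (S i).card) ∧ A = Fintype.piFinset S) ?_
  · obtain ⟨A, ⟨S, hS, rfl⟩, p, hp⟩ := hlim
    exact ⟨S, hS, p, fun a ha => hp a (Fintype.mem_piFinset.2 ha)⟩
  · intro ε hε
    set γ : Fin M → (Fin d → ℝ) := fun k j => ((k.val : ℝ)) ^ (j.val + 1) with hγ
    set G : ℝ := ∑ k, ‖γ k‖ with hG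
    have hG0 : 0 ≤ G := Finset.sum_nonneg fun _ _ => norm_nonneg _
    have hGk : ∀ k, ‖γ k‖ ≤ G := fun k =>
      Finset.single_le_sum (f := fun k => ‖γ k‖) (fun _ _ => norm_nonneg _) (Finset.mem_univ k)
    set δ : ℝ := ε / (G + 1) with hδ
    have hδ0 : 0 < δ := div_pos hε (by linarith)
    have hδG : δ * G ≤ ε := by
      rw [hδ, div_mul_eq_mul_div, div_le_iff₀ (by linarith)]
      nlinarith
    obtain ⟨S', hS', p, hp⟩ := hmain (T × Fin M) (fun i x => Q i x.1 + δ • γ x.2)
      (gen_copies Q M κ δ hδ0 hM')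
    refine ⟨Fintype.piFinset fun i => (S' i).image Prod.fst, ⟨_, fun i => ?_, rfl⟩, p, ?_⟩
    · have h1 : (S' i).card ≤ M * ((S' i).image Prod.fst).card := by
        apply Finset.card_le_mul_card_image
        intro t _
        have h2 : ((S' i).filter fun x => x.1 = t).card ≤ (univ : Finset (Fin M)).card := by
          apply Finset.card_le_card_of_injOn Prod.snd (fun x _ => Finset.mem_univ _)
          intro x hx y hy hxy
          have h1 := (Finset.mem_filter.1 (Finset.mem_coe.1 hx)).2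
          have h2 := (Finset.mem_filter.1 (Finset.mem_coe.1 hy)).2
          exact Prod.ext (h1.trans h2.symm) hxy
        rwa [Finset.card_univ, Fintype.card_fin] at h2
      have h2 := hS' i
      rw [Fintype.card_prod, Fintype.card_fin, Nat.cast_mul] at h2
      have h3 : ((S' i).card : ℝ) ≤ M * ((S' i).image Prod.fst).card := by exact_mod_cast h1
      have h4 : (M : ℝ) * (c * Fintype.card T) ≤ M * ((S' i).image Prod.fst).card := by
        calc (M : ℝ) * (c * Fintype.card T) = c * (Fintype.card T * M) := by ring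
          _ ≤ _ := h2.trans h3
      exact le_of_mul_le_mul_left h4 (by exact_mod_cast hM0)
    · intro a ha
      rw [Fintype.mem_piFinset] at ha
      choose b hb1 hb2 using fun i => Finset.mem_image.1 (ha i)
      obtain ⟨l, hl0, hl1, hl⟩ := hull_weights _ p (hp b hb1)
      have hq : ∑ j, l j • Q j (a j) ∈ hull Q a :=
        mem_convexHull_of_exists_fintype l (fun j => Q j (a j)) hl0 hl1 (fun j => ⟨j, rfl⟩) rfl
      refine (Metric.infDist_le_dist_of_mem hq).trans ?_
      have hdiff : p - ∑ j, l j • Q j (a j) = ∑ j, l j • (δ • γ (b j).2) := by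
        rw [← hl, ← Finset.sum_sub_distrib]
        refine Finset.sum_congr rfl fun j _ => ?_
        dsimp only
        rw [hb2 j, smul_add, add_sub_cancel_left]
      rw [dist_eq_norm, hdiff]
      calc ‖∑ j, l j • (δ • γ (b j).2)‖ ≤ ∑ j, ‖l j • (δ • γ (b j).2)‖ := norm_sum_le _ _
        _ ≤ ∑ j, l j * (δ * G) := by
          refine Finset.sum_le_sum fun j _ => ?_
          rw [norm_smul, norm_smul, Real.norm_eq_abs, Real.norm_eq_abs, abs_of_nonneg (hl0 j),
            abs_of_pos hδ0]
          exact mul_le_mul_of_nonneg_left (mul_le_mul_of_nonneg_left (hGk _) hδ0.le) (hl0 j)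
        _ = δ * G := by rw [← Finset.sum_mul, hl1, one_mul]
        _ ≤ ε := hδG

end Pool.Agent.V11135.Sel
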