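import Mathlib

/-!
# Choosing one point for every cell (method of conditional expectations)

`M` is a type of cells, every cell has neighbours `nb δ m`, `δ : Δ`.  If for every cell the total
weight of the tuples `Fin n → T` is less than `|T| ^ n / |Δ| ^ k`, then one can choose an element
`x j m` for every cell and every index such that for every chain of cells `m 0, m 1, …, m k` (each a
neighbour of the next) the tuple of the chosen elements has weight `0` for the cell `m 0`.
-/

set_option autoImplicit false

namespace Pool.Agent.V11135.Sel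

open Finset Function

variable {T M Δ : Type} [Fintype T] [DecidableEq T] [Nonempty T] [Fintype Δ]

/-- replace the entry with index `k` -/
def upd {n : ℕ} (k : ℕ) (x : T) (a : Fin n → T) : Fin n → T := fun j => if j.val = k then x else a j

omit [Fintype T] [DecidableEq T] [Nonempty T] in
theorem upd_upd {n : ℕ} (k : Fin n) (x : T) (a : Fin n → T) :
    upd k.val (a k) (upd k.val x a) = a := by
  funext j
  unfold upd
  by_cases h : j.val = k.val
  · have : j = k := Fin.ext h
    simp [this]
  · simp [h]

omit [DecidableEq T] [Nonempty T] in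
theorem sum_upd {n : ℕ} (k : Fin n) (F : (Fin n → T) → ℕ) :
    ∑ x : T, ∑ a : Fin n → T, F (upd k.val x a) = Fintype.card T * ∑ a : Fin n → T, F a := by
  have e : ∀ q : T × (Fin n → T), ((upd k.val q.1 q.2) k, upd k.val (q.2 k) (upd k.val q.1 q.2))
      = (q.1, q.2) := by
    intro q
    rw [upd_upd]
    simp [upd]
  let E : T × (Fin n → T) ≃ T × (Fin n → T) :=
    { toFun := fun q => (q.2 k, upd k.val q.1 q.2)
      invFun := fun q => (q.2 k, upd k.val q.1 q.2)
      left_inv := fun q => by simpa using e q
      right_inv := fun q => by simpa using e q }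
  have h1 : ∑ q : T × (Fin n → T), F (upd k.val q.1 q.2) = ∑ q : T × (Fin n → T), F q.2 := by
    exact Fintype.sum_equiv E _ _ (fun q => rfl)
  rw [Fintype.sum_prod_type, Fintype.sum_prod_type] at h1
  rw [h1]
  simp

omit [DecidableEq T] in
theorem exists_upd {n : ℕ} (k : Fin n) (F : (Fin n → T) → ℕ) :
    ∃ x : T, ∑ a : Fin n → T, F (upd k.val x a) ≤ ∑ a : Fin n → T, F a := by
  by_contra hne
  push Not at hne
  have h := sum_upd k F
  have h2 : ∑ _x : T, ∑ a : Fin n → T, F a < ∑ x : T, ∑ a : Fin n → T, F (upd k.val x a) := by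
    apply Finset.sum_lt_sum_of_nonempty univ_nonempty
    intro x _
    exact hne x
  rw [h] at h2
  simp at h2

/-- the element chosen at the step `k` for the weight function `F` -/
noncomputable def pick {n : ℕ} (k : ℕ) (F : (Fin n → T) → ℕ) : T :=
  if h : k < n then (exists_upd (⟨k, h⟩ : Fin n) F).choose else Classical.arbitrary T

omit [DecidableEq T] in
theorem pick_spec {n : ℕ} {k : ℕ} (hk : k < n) (F : (Fin n → T) → ℕ) :
    ∑ a : Fin n → T, F (upd k (pick k F) a) ≤ ∑ a : Fin n → T, F a := by
  unfold pick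
  rw [dif_pos hk]
  exact (exists_upd (⟨k, hk⟩ : Fin n) F).choose_spec

/-- the weights -/
noncomputable def psi {n : ℕ} (nb : Δ → M → M) (w : M → (Fin n → T) → ℕ) :
    ℕ → M → (Fin n → T) → ℕ
  | 0 => w
  | k + 1 => fun m a => ∑ δ : Δ, psi nb w k (nb δ m)
      (upd k (pick k (psi nb w k (nb δ m))) a)

/-- the chosen elements -/
noncomputable def chosen {n : ℕ} (nb : Δ → M → M) (w : M → (Fin n → T) → ℕ) (k : ℕ) (m : M) : T :=
  pick k (psi nb w k m)

omit [DecidableEq T] in
theorem psi_le {n : ℕ} (nb : Δ → M → M) (w : M → (Fin n → T) → ℕ) (B : ℕ)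
    (hB : ∀ m, ∑ a : Fin n → T, w m a ≤ B) (k : ℕ) (hk : k ≤ n) (m : M) :
    ∑ a : Fin n → T, psi nb w k m a ≤ (Fintype.card Δ) ^ k * B := by
  induction k generalizing m with
  | zero => simpa [psi] using hB m
  | succ k ih =>
    have hk' : k < n := hk
    calc ∑ a : Fin n → T, psi nb w (k + 1) m a
        = ∑ δ : Δ, ∑ a : Fin n → T, psi nb w k (nb δ m)
            (upd k (pick k (psi nb w k (nb δ m))) a) := by
          rw [Finset.sum_comm]; rfl
      _ ≤ ∑ δ : Δ, ∑ a : Fin n → T, psi nb w k (nb δ m) a :=
          Finset.sum_le_sum fun δ _ => pick_spec hk' _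
      _ ≤ ∑ _δ : Δ, (Fintype.card Δ) ^ k * B :=
          Finset.sum_le_sum fun δ _ => ih hk'.le (nb δ m)
      _ = (Fintype.card Δ) ^ (k + 1) * B := by
          rw [Finset.sum_const, Finset.card_univ, smul_eq_mul]; ring

omit [DecidableEq T] in
theorem chain_zero {n : ℕ} (nb : Δ → M → M) (w : M → (Fin n → T) → ℕ) (m : ℕ → M)
    (k : ℕ) (hm : ∀ j, j < k → ∃ δ, nb δ (m (j + 1)) = m j) (a : Fin n → T)
    (h0 : psi nb w k (m k) (upd k (chosen nb w k (m k)) a) = 0) :
    w (m 0) (fun j => if j.val ≤ k then chosen nb w j.val (m j.val) else a j) = 0 := by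
  induction k generalizing a with
  | zero =>
    have : (fun j : Fin n => if j.val ≤ 0 then chosen nb w j.val (m j.val) else a j)
        = upd 0 (chosen nb w 0 (m 0)) a := by
      funext j
      unfold upd
      by_cases h : j.val = 0
      · simp [h]
      · have : ¬ j.val ≤ 0 := by omega
        simp [h]
    rw [this]
    exact h0
  | succ k ih =>
    obtain ⟨δ, hδ⟩ := hm k (Nat.lt_succ_self k)
    set b := upd (k + 1) (chosen nb w (k + 1) (m (k + 1))) a with hb
    have h1 : psi nb w k (nb δ (m (k + 1)))
        (upd k (pick k (psi nb w k (nb δ (m (k + 1))))) b) = 0 := by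
      have : psi nb w (k + 1) (m (k + 1)) b = ∑ δ : Δ, psi nb w k (nb δ (m (k + 1)))
        (upd k (pick k (psi nb w k (nb δ (m (k + 1))))) b) := rfl
      rw [this] at h0
      exact (Finset.sum_eq_zero_iff.1 h0) δ (mem_univ _)
    rw [hδ] at h1
    have h2 := ih (fun j hj => hm j (hj.trans (Nat.lt_succ_self k))) b h1
    refine Eq.trans (congrArg (w (m 0)) ?_) h2
    funext j
    by_cases h3 : j.val ≤ k
    · have : j.val ≤ k + 1 := by omega
      simp [h3, this]
    · by_cases h4 : j.val = k + 1
      · rw [if_neg h3, hb]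
        unfold upd
        simp [h4]
      · have : ¬ j.val ≤ k + 1 := by omega
        rw [if_neg h3, if_neg this, hb]
        unfold upd
        simp [h4]

omit [DecidableEq T] in
/-- **The choice lemma.** -/
theorem exists_choice (d : ℕ) (nb : Δ → M → M) (w : M → (Fin (d + 1) → T) → ℕ)
    (hB : ∀ m, (Fintype.card Δ) ^ d * ∑ a : Fin (d + 1) → T, w m a
      < (Fintype.card T) ^ (d + 1)) :
    ∃ x : ℕ → M → T, ∀ m : ℕ → M, (∀ j, j < d → ∃ δ, nb δ (m (j + 1)) = m j) →
      w (m 0) (fun j => x j.val (m j.val)) = 0 := by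
  refine ⟨chosen nb w, fun m hm => ?_⟩
  -- a uniform bound for the total weights
  rcases Nat.eq_zero_or_pos (Fintype.card Δ) with hΔ | hΔ
  · -- no neighbours: then `d = 0`
    rcases Nat.eq_zero_or_pos d with hd | hd
    · subst hd
      have h1 : ∑ a : Fin (0 + 1) → T, psi nb w 0 (m 0)
          (upd 0 (chosen nb w 0 (m 0)) a) < Fintype.card (Fin (0 + 1) → T) := by
        calc _ ≤ ∑ a : Fin (0 + 1) → T, psi nb w 0 (m 0) a := pick_spec (by omega) _
          _ < _ := by
            have := hB (m 0)
            simpa [psi, Fintype.card_fun] using this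
      obtain ⟨a, ha⟩ : ∃ a : Fin (0 + 1) → T, psi nb w 0 (m 0)
          (upd 0 (chosen nb w 0 (m 0)) a) = 0 := by
        by_contra hne
        push Not at hne
        have : Fintype.card (Fin (0 + 1) → T) ≤ ∑ a : Fin (0 + 1) → T, psi nb w 0 (m 0)
          (upd 0 (chosen nb w 0 (m 0)) a) := by
          rw [← Finset.card_univ, Finset.card_eq_sum_ones]
          exact Finset.sum_le_sum fun a _ => Nat.one_le_iff_ne_zero.2 (hne a)
        omega
      have := chain_zero nb w m 0 (by intro j hj; omega) a ha
      simpa using this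
    · obtain ⟨δ, -⟩ := hm 0 hd
      have : 0 < Fintype.card Δ := Fintype.card_pos_iff.2 ⟨δ⟩
      omega
  · -- the largest total weight
    have hbdd : ∃ B, (∀ m, ∑ a : Fin (d + 1) → T, w m a ≤ B) ∧
        (Fintype.card Δ) ^ d * B < (Fintype.card T) ^ (d + 1) := by
      refine ⟨((Fintype.card T) ^ (d + 1) - 1) / (Fintype.card Δ) ^ d, ?_, ?_⟩
      · intro m
        rw [Nat.le_div_iff_mul_le (by positivity)]
        have := hB m
        rw [mul_comm]
        omega
      · have h1 : (Fintype.card Δ) ^ d * (((Fintype.card T) ^ (d + 1) - 1) /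
            (Fintype.card Δ) ^ d) ≤ (Fintype.card T) ^ (d + 1) - 1 := Nat.mul_div_le _ _
        have h2 : 0 < (Fintype.card T) ^ (d + 1) := by
          have : 0 < Fintype.card T := Fintype.card_pos
          positivity
        omega
    obtain ⟨B, hB1, hB2⟩ := hbdd
    have h1 : ∑ a : Fin (d + 1) → T, psi nb w d (m d)
        (upd d (chosen nb w d (m d)) a) < Fintype.card (Fin (d + 1) → T) := by
      calc _ ≤ ∑ a : Fin (d + 1) → T, psi nb w d (m d) a := pick_spec (by omega) _
        _ ≤ (Fintype.card Δ) ^ d * B := psi_le nb w B hB1 d (by omega) _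
        _ < _ := by simpa [Fintype.card_fun] using hB2
    obtain ⟨a, ha⟩ : ∃ a : Fin (d + 1) → T, psi nb w d (m d)
        (upd d (chosen nb w d (m d)) a) = 0 := by
      by_contra hne
      push Not at hne
      have : Fintype.card (Fin (d + 1) → T) ≤ ∑ a : Fin (d + 1) → T, psi nb w d (m d)
        (upd d (chosen nb w d (m d)) a) := by
        rw [← Finset.card_univ, Finset.card_eq_sum_ones]
        exact Finset.sum_le_sum fun a _ => Nat.one_le_iff_ne_zero.2 (hne a)
      omega
    have := chain_zero nb w m d hm a ha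
    refine Eq.trans (congrArg (w (m 0)) ?_) this
    funext j
    have : j.val ≤ d := by omega
    simp [this]

end Pool.Agent.V11135.Sel
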