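import Pool.Agent.V11135.Sel.Choice
import Pool.Agent.Helper133.Brouwer

/-!
# A coloured selection lemma at a positive scale

Cells of the cubical grid: integer vectors; an even coordinate is a vertex coordinate, an odd
coordinate is an edge coordinate.
-/

set_option autoImplicit false

namespace Pool.Agent.V11135.Sel

open Finset Function Set

variable {d : ℕ}

/-- lower bound for the thresholds of a coordinate -/
noncomputable def lo (m : Fin d → ℤ) (u : Fin d → ℝ) (i : Fin d) : ℝ :=
  if Even (m i) then |u i - m i| else 0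

/-- upper bound for the thresholds of a coordinate -/
noncomputable def hi (m : Fin d → ℤ) (u : Fin d → ℝ) (i : Fin d) : ℝ :=
  if Even (m i) then 1 else 1 - |u i - m i|

/-- the (unnormalised) weight of a cell at a point -/
noncomputable def wt (m : Fin d → ℤ) (u : Fin d → ℝ) : ℝ :=
  ∏ i, ∏ j, max 0 (hi m u i - lo m u j)

/-- the dimension of a cell -/
noncomputable def cdim (m : Fin d → ℤ) : ℕ := (univ.filter fun i => ¬ Even (m i)).card

theorem cdim_le (m : Fin d → ℤ) : cdim m ≤ d := by
  unfold cdim
  calc _ ≤ (univ : Finset (Fin d)).card := Finset.card_filter_le _ _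
    _ = d := by simp

theorem wt_nonneg (m : Fin d → ℤ) (u : Fin d → ℝ) : 0 ≤ wt m u :=
  Finset.prod_nonneg fun _ _ => Finset.prod_nonneg fun _ _ => le_max_left _ _

theorem continuous_wt (m : Fin d → ℤ) : Continuous (wt m) := by
  unfold wt
  refine continuous_finsetProd _ fun i _ => continuous_finsetProd _ fun j _ => ?_
  refine continuous_const.max ?_
  unfold hi lo
  refine Continuous.sub ?_ ?_
  · by_cases h : Even (m i)
    · simp only [h, if_true]; exact continuous_const
    · simp only [h, if_false]
      exact continuous_const.sub ((continuous_apply i).sub continuous_const).abs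
  · by_cases h : Even (m j)
    · simp only [h, if_true]
      exact ((continuous_apply j).sub continuous_const).abs
    · simp only [h, if_false]; exact continuous_const

/-- a cell is active at the threshold `s` -/
def Act (m : Fin d → ℤ) (u : Fin d → ℝ) (s : ℝ) : Prop :=
  ∀ i, (Even (m i) → |u i - m i| < s) ∧ (¬ Even (m i) → |u i - m i| < 1 - s)

theorem act_of_wt_pos (hd : 0 < d) {m : Fin d → ℤ} {u : Fin d → ℝ} (h : 0 < wt m u) :
    ∃ s : ℝ, 0 < s ∧ s < 1 ∧ Act m u s := by
  have hne : (univ : Finset (Fin d)).Nonempty := ⟨⟨0, hd⟩, mem_univ _⟩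
  have key : ∀ i j, lo m u j < hi m u i := by
    intro i j
    by_contra hle
    push Not at hle
    have h1 : max 0 (hi m u i - lo m u j) = 0 := max_eq_left (by linarith)
    have h2 : wt m u = 0 :=
      Finset.prod_eq_zero (mem_univ i) (Finset.prod_eq_zero (mem_univ j) h1)
    linarith
  obtain ⟨j0, -, hj0⟩ := Finset.exists_max_image univ (lo m u) hne
  obtain ⟨i0, -, hi0⟩ := Finset.exists_min_image univ (hi m u) hne
  have h1 := key i0 j0
  have hlo : 0 ≤ lo m u j0 := by unfold lo; split_ifs <;> positivity
  have hhi : hi m u i0 ≤ 1 := by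
    unfold hi; split_ifs
    · exact le_rfl
    · have := abs_nonneg (u i0 - m i0); linarith
  refine ⟨(lo m u j0 + hi m u i0) / 2, by linarith, by linarith, fun i => ⟨fun he => ?_, fun he => ?_⟩⟩
  · have h2 := hj0 i (mem_univ _)
    have h3 : lo m u i = |u i - m i| := by unfold lo; rw [if_pos he]
    linarith
  · have h2 := hi0 i (mem_univ _)
    have h3 : hi m u i = 1 - |u i - m i| := by unfold hi; rw [if_neg he]
    linarith

theorem wt_pos_of_act {m : Fin d → ℤ} {u : Fin d → ℝ} {s : ℝ} (h0 : 0 < s) (h1 : s < 1)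
    (h : Act m u s) : 0 < wt m u := by
  have hlo : ∀ j, lo m u j < s := by
    intro j
    unfold lo
    split_ifs with he
    · exact (h j).1 he
    · exact h0
  have hhi : ∀ i, s < hi m u i := by
    intro i
    unfold hi
    split_ifs with he
    · exact h1
    · have := (h i).2 he; linarith
  refine Finset.prod_pos fun i _ => Finset.prod_pos fun j _ => ?_
  exact lt_max_of_lt_right (by linarith [hlo j, hhi i])

theorem act_lt_one {m : Fin d → ℤ} {u : Fin d → ℝ} {s : ℝ} (h0 : 0 < s) (h1 : s < 1)
    (h : Act m u s) (i : Fin d) : |u i - m i| < 1 := by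
  by_cases he : Even (m i)
  · have := (h i).1 he; linarith
  · have := (h i).2 he; linarith

/-- comparison of two active cells -/
theorem act_compare {m m' : Fin d → ℤ} {u : Fin d → ℝ} {s s' : ℝ} (h0 : 0 < s) (h1 : s' < 1)
    (hss : s ≤ s') (h : Act m u s) (h' : Act m' u s') :
    (∀ i, |m i - m' i| ≤ 1) ∧ (cdim m = cdim m' → m = m') := by
  have tri : ∀ i, |((m i - m' i : ℤ) : ℝ)| ≤ |u i - m i| + |u i - m' i| := by
    intro i
    have : ((m i - m' i : ℤ) : ℝ) = (u i - m' i) - (u i - m i) := by push_cast; ring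
    rw [this]
    calc |(u i - m' i) - (u i - m i)| ≤ |u i - m' i| + |u i - m i| := abs_sub _ _
      _ = _ := add_comm _ _
  have hodd : ∀ i, ¬ Even (m' i) → ¬ Even (m i) ∧ m i = m' i := by
    intro i ho
    have h2 := (h' i).2 ho
    by_cases he : Even (m i)
    · exfalso
      have h3 := (h i).1 he
      have h4 : |((m i - m' i : ℤ) : ℝ)| < 1 := by linarith [tri i]
      have h5 : |m i - m' i| < 1 := by exact_mod_cast h4
      have h6 : m i = m' i := by
        have := Int.abs_lt_one_iff.1 h5; omega
      rw [← h6] at ho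
      exact ho he
    · refine ⟨he, ?_⟩
      have h3 := (h i).2 he
      have h4 : |((m i - m' i : ℤ) : ℝ)| < 2 := by linarith [tri i]
      have h5 : |m i - m' i| < 2 := by exact_mod_cast h4
      rw [Int.not_even_iff_odd] at ho he
      have h6 : Even (m i - m' i) := he.sub_odd ho
      obtain ⟨k, hk⟩ := h6
      rw [abs_lt] at h5
      omega
  have hle : ∀ i, |m i - m' i| ≤ 1 := by
    intro i
    by_cases ho : Even (m' i)
    · by_cases he : Even (m i)
      · have h3 := (h i).1 he
        have h2 := (h' i).1 ho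
        have h4 : |((m i - m' i : ℤ) : ℝ)| < 2 := by linarith [tri i]
        have h5 : |m i - m' i| < 2 := by exact_mod_cast h4
        omega
      · have h3 := (h i).2 he
        have h2 := (h' i).1 ho
        have h4 : |((m i - m' i : ℤ) : ℝ)| < 2 := by linarith [tri i]
        have h5 : |m i - m' i| < 2 := by exact_mod_cast h4
        omega
    · rw [(hodd i ho).2]; simp
  refine ⟨hle, fun hdim => ?_⟩
  have hsub : (univ.filter fun i => ¬ Even (m' i)) ⊆ (univ.filter fun i => ¬ Even (m i)) := by
    intro i hi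
    simp only [Finset.mem_filter, Finset.mem_univ, true_and] at hi ⊢
    exact (hodd i hi).1
  have heq := Finset.eq_of_subset_of_card_le hsub (by unfold cdim at hdim; omega)
  funext i
  by_cases ho : Even (m' i)
  · have he : Even (m i) := by
      by_contra hne
      have : i ∈ (univ.filter fun i => ¬ Even (m i)) := Finset.mem_filter.2 ⟨Finset.mem_univ _, hne⟩
      rw [← heq] at this
      simp only [Finset.mem_filter, Finset.mem_univ, true_and] at this
      exact this ho
    have h3 := (h i).1 he
    have h2 := (h' i).1 ho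
    have h4 : |((m i - m' i : ℤ) : ℝ)| < 2 := by linarith [tri i]
    have h5 : |m i - m' i| < 2 := by exact_mod_cast h4
    obtain ⟨k, hk⟩ := he.sub ho
    rw [abs_lt] at h5
    omega
  · exact (hodd i ho).2

theorem wt_compare (hd : 0 < d) {m m' : Fin d → ℤ} {u : Fin d → ℝ} (h : 0 < wt m u)
    (h' : 0 < wt m' u) : (∀ i, |m i - m' i| ≤ 1) ∧ (cdim m = cdim m' → m = m') := by
  obtain ⟨s, hs0, hs1, hs⟩ := act_of_wt_pos hd h
  obtain ⟨s', hs0', hs1', hs'⟩ := act_of_wt_pos hd h'
  rcases le_total s s' with hle | hle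
  · exact act_compare hs0 hs1' hle hs hs'
  · obtain ⟨h1, h2⟩ := act_compare hs0' hs1 hle hs' hs
    refine ⟨fun i => ?_, fun hc => (h2 hc.symm).symm⟩
    rw [abs_sub_comm]; exact h1 i

theorem exists_wt_pos (u : Fin d → ℝ) : ∃ m, 0 < wt m u ∧ ∀ i, |u i - m i| < 1 := by
  have hc : (⋃ i : Fin d, Set.range fun q : ℤ => |u i - 2 * q|).Countable :=
    Set.countable_iUnion fun i => Set.countable_range _
  obtain ⟨s, hs, hs0, hs1⟩ := (hc.dense_compl ℝ).exists_between (zero_lt_one)
  have hs' : ∀ (i : Fin d) (q : ℤ), |u i - 2 * q| ≠ s := by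
    intro i q hq
    exact hs (Set.mem_iUnion.2 ⟨i, q, hq⟩)
  have : ∀ i : Fin d, ∃ n : ℤ, (Even n → |u i - n| < s) ∧ (¬ Even n → |u i - n| < 1 - s) := by
    intro i
    set q := ⌊(u i + s) / 2⌋ with hq
    have h1 : (q : ℝ) ≤ (u i + s) / 2 := Int.floor_le _
    have h2 : (u i + s) / 2 < q + 1 := Int.lt_floor_add_one _
    have h3 := hs' i q
    by_cases hcase : u i < 2 * q + s
    · refine ⟨2 * q, fun _ => ?_, fun hne => absurd (even_two_mul q) hne⟩
      have h4 : |u i - 2 * (q : ℝ)| ≤ s := by rw [abs_le]; constructor <;> linarith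
      have h5 : |u i - 2 * (q : ℝ)| < s := lt_of_le_of_ne h4 h3
      push_cast
      exact h5
    · refine ⟨2 * q + 1, fun he => ?_, fun _ => ?_⟩
      · exfalso
        obtain ⟨k, hk⟩ := he; omega
      · have h4 : u i ≠ 2 * q + s := by
          intro h
          apply h3
          rw [h]
          have : 2 * (q : ℝ) + s - 2 * q = s := by ring
          rw [this, abs_of_pos hs0]
        have h5 : 2 * (q : ℝ) + s < u i := lt_of_le_of_ne (not_lt.1 hcase) (Ne.symm h4)
        push_cast
        rw [abs_lt]
        constructor <;> linarith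
  choose m hm using this
  refine ⟨m, wt_pos_of_act hs0 hs1 hm, fun i => act_lt_one hs0 hs1 hm i⟩

end Pool.Agent.V11135.Sel
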