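import Pool.Agent.V11135.Sel.Scale

/-!
# The coloured selection lemma
-/

set_option autoImplicit false

namespace Pool.Agent.V11135.Sel

open Finset Function Set Filter Topology

variable {d : ℕ} {T : Type} [Fintype T] [Nonempty T]

/-- the simplex of a tuple -/
def hull (Q : Fin (d + 1) → T → (Fin d → ℝ)) (a : Fin (d + 1) → T) : Set (Fin d → ℝ) :=
  convexHull ℝ (Set.range fun j => Q j (a j))

omit [Fintype T] [Nonempty T] in
theorem isCompact_hull (Q : Fin (d + 1) → T → (Fin d → ℝ)) (a : Fin (d + 1) → T) :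
    IsCompact (hull Q a) := (Set.finite_range _).isCompact_convexHull ℝ

omit [Fintype T] [Nonempty T] in
theorem hull_nonempty (Q : Fin (d + 1) → T → (Fin d → ℝ)) (a : Fin (d + 1) → T) :
    (hull Q a).Nonempty := (Set.range_nonempty _).convexHull

omit [Nonempty T] in
/-- compactness -/
theorem exists_limit (Q : Fin (d + 1) → T → (Fin d → ℝ))
    (P : Finset (Fin (d + 1) → T) → Prop)
    (h : ∀ ε : ℝ, 0 < ε → ∃ A, P A ∧ ∃ p : Fin d → ℝ, ∀ a ∈ A, Metric.infDist p (hull Q a) ≤ ε) :
    ∃ A, P A ∧ ∃ p : Fin d → ℝ, ∀ a ∈ A, p ∈ hull Q a := by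
  classical
  by_contra hne
  push Not at hne
  have key : ∀ A, P A → ∃ n : ℕ, ∀ p : Fin d → ℝ, ∃ a ∈ A,
      1 / ((n : ℝ) + 1) < Metric.infDist p (hull Q a) := by
    intro A hA
    by_contra hn
    push Not at hn
    choose p hp using hn
    rcases A.eq_empty_or_nonempty with rfl | ⟨a0, ha0⟩
    · obtain ⟨a, ha, -⟩ := hne ∅ hA 0
      exact absurd ha (Finset.notMem_empty _)
    · have hK : IsCompact (Metric.cthickening 1 (hull Q a0)) :=
        (isCompact_hull Q a0).cthickening
      have hin : ∀ n, p n ∈ Metric.cthickening 1 (hull Q a0) := by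
        intro n
        rw [Metric.cthickening_eq_preimage_infEDist] 
        have h1 := hp n a0 ha0
        have h2 : (1 : ℝ) / ((n : ℝ) + 1) ≤ 1 := by
          rw [div_le_one (by positivity)]; linarith [(Nat.cast_nonneg n : (0:ℝ) ≤ n)]
        have h3 : Metric.infDist (p n) (hull Q a0) ≤ 1 := h1.trans h2
        have h4 : Metric.infEDist (p n) (hull Q a0) ≠ ⊤ :=
          Metric.infEDist_ne_top (hull_nonempty Q a0)
        simp only [Set.mem_preimage, Set.mem_Iic]
        rw [← ENNReal.ofReal_toReal h4]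
        exact ENNReal.ofReal_le_ofReal h3
      obtain ⟨q, -, φ, hφ, hlim⟩ := hK.tendsto_subseq hin
      obtain ⟨a, ha, hqa⟩ := hne A hA q
      apply hqa
      have h1 : Tendsto (fun n => Metric.infDist (p (φ n)) (hull Q a)) atTop
          (𝓝 (Metric.infDist q (hull Q a))) :=
        ((Metric.continuous_infDist_pt _).tendsto q).comp hlim
      have h2 : Tendsto (fun n => 1 / (((φ n : ℕ) : ℝ) + 1)) atTop (𝓝 0) :=
        (tendsto_one_div_add_atTop_nhds_zero_nat (𝕜 := ℝ)).comp hφ.tendsto_atTop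
      have h3 : Metric.infDist q (hull Q a) ≤ 0 :=
        le_of_tendsto_of_tendsto' h1 h2 fun n => hp (φ n) a ha
      have h4 : Metric.infDist q (hull Q a) = 0 := le_antisymm h3 Metric.infDist_nonneg
      rw [(isCompact_hull Q a).isClosed.mem_iff_infDist_zero (hull_nonempty Q a)]
      exact h4
  choose! n hn using key
  set N : ℕ := (univ : Finset (Finset (Fin (d + 1) → T))).sup n with hN
  obtain ⟨A, hA, p, hp⟩ := h (1 / ((N : ℝ) + 1)) (by positivity)
  obtain ⟨a, ha, hlt⟩ := hn A hA p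
  have h1 : n A ≤ N := Finset.le_sup (f := n) (Finset.mem_univ A)
  have h2 : 1 / ((N : ℝ) + 1) ≤ 1 / ((n A : ℝ) + 1) := by
    apply one_div_le_one_div_of_le (by positivity)
    have : (n A : ℝ) ≤ N := by exact_mod_cast h1
    linarith
  linarith [hp a ha]

/-- **The coloured selection lemma**: some point is in a `3 ^ (-d²)`-fraction of the simplices. -/
theorem selection (hd : 0 < d) (Q : Fin (d + 1) → T → (Fin d → ℝ)) :
    ∃ A : Finset (Fin (d + 1) → T), (Fintype.card T) ^ (d + 1) ≤ (3 ^ d) ^ d * A.card ∧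
      ∃ p : Fin d → ℝ, ∀ a ∈ A, p ∈ hull Q a := by
  classical
  apply exists_limit Q (fun A => (Fintype.card T) ^ (d + 1) ≤ (3 ^ d) ^ d * A.card)
  intro ε hε
  obtain ⟨m, hm⟩ := exists_cell hd Q hε
  refine ⟨_, hm, fun i => ε * m i, ?_⟩
  intro a ha
  obtain ⟨q, hq, hqi⟩ := (Finset.mem_filter.1 ha).2
  refine (Metric.infDist_le_dist_of_mem hq).trans ?_
  rw [dist_comm, dist_pi_le_iff hε.le]
  intro i
  rw [Real.dist_eq]
  exact hqi i

end Pool.Agent.V11135.Sel
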