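import Mathlib

/-!
# Regular boxes of multipartite hypergraphs
-/

set_option autoImplicit false

namespace Pool.Agent.V11135.Sel

open Finset Function

variable {ι T : Type} [Fintype ι] [DecidableEq ι] [DecidableEq T]

/-- the edges in a box -/
def inBox (E : Finset (ι → T)) (S : ι → Finset T) : Finset (ι → T) :=
  E.filter fun a => ∀ i, a i ∈ S i

omit [DecidableEq ι] in
theorem mem_inBox {E : Finset (ι → T)} {S : ι → Finset T} {a : ι → T} :
    a ∈ inBox E S ↔ a ∈ E ∧ ∀ i, a i ∈ S i := by simp [inBox]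

theorem inBox_card_le (E : Finset (ι → T)) (S : ι → Finset T) :
    (inBox E S).card ≤ ∏ i, (S i).card := by
  rw [← Fintype.card_piFinset]
  refine Finset.card_le_card fun a ha => ?_
  rw [Fintype.mem_piFinset]
  exact (mem_inBox.1 ha).2

/-- the sub-boxes of `S` given by subsets `R i` and their complements -/
def sub (S R : ι → Finset T) (χ : ι → Bool) : ι → Finset T :=
  fun i => if χ i then R i else S i \ R i

theorem inBox_split (E : Finset (ι → T)) (S R : ι → Finset T) (hR : ∀ i, R i ⊆ S i) :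
    (inBox E S).card = ∑ χ : ι → Bool, (inBox E (sub S R χ)).card := by
  classical
  rw [Finset.card_eq_sum_card_fiberwise (f := fun a : ι → T => fun i => decide (a i ∈ R i))
    (t := (univ : Finset (ι → Bool))) (by intro a _; simp)]
  refine Finset.sum_congr rfl fun χ _ => ?_
  congr 1
  ext a
  simp only [Finset.mem_filter, mem_inBox]
  constructor
  · rintro ⟨⟨h1, h2⟩, h3⟩
    refine ⟨h1, fun i => ?_⟩
    unfold sub
    rw [← h3]
    by_cases h : a i ∈ R i
    · simp [h]
    · simp [h, h2 i]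
  · rintro ⟨h1, h2⟩
    have h3 : ∀ i, decide (a i ∈ R i) = χ i := by
      intro i
      have h4 := h2 i
      unfold sub at h4
      by_cases h : χ i = true
      · rw [if_pos h] at h4; simp [h, h4]
      · rw [if_neg h] at h4
        have := (Finset.mem_sdiff.1 h4).2
        simp [this]
        simpa using h
    refine ⟨⟨h1, fun i => ?_⟩, funext h3⟩
    have h4 := h2 i
    unfold sub at h4
    split_ifs at h4
    · exact hR i h4
    · exact (Finset.mem_sdiff.1 h4).1

omit [Fintype ι] [DecidableEq ι] in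
theorem sub_true (S R : ι → Finset T) : sub S R (fun _ => true) = R := by
  funext i; unfold sub; simp

theorem sub_prod (S R : ι → Finset T) (hRS : ∀ i, R i ⊆ S i) :
    ∏ i, ((S i).card : ℝ) = ∑ χ : ι → Bool, ∏ i, ((sub S R χ i).card : ℝ) := by
  have h3 := Finset.prod_univ_sum (fun _ : ι => (univ : Finset Bool))
    (fun i b => ((if b then (R i).card else (S i \ R i).card : ℕ) : ℝ))
  rw [Fintype.piFinset_univ] at h3
  have h4 : ∏ i, ((S i).card : ℝ) = ∏ i, ∑ b : Bool,
      ((if b then (R i).card else (S i \ R i).card : ℕ) : ℝ) := by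
    refine Finset.prod_congr rfl fun i _ => ?_
    rw [Fintype.sum_bool, if_pos rfl, if_neg (by simp)]
    rw [Finset.card_sdiff_of_subset (hRS i), ← Nat.cast_add,
      Nat.add_sub_cancel' (Finset.card_le_card (hRS i))]
  rw [h4, h3]
  refine Finset.sum_congr rfl fun χ _ => Finset.prod_congr rfl fun i _ => ?_
  unfold sub
  cases χ i <;> rfl

theorem increment (E : Finset (ι → T)) (S R : ι → Finset T) (hRS : ∀ i, R i ⊆ S i)
    (htop : (inBox E R).card = 0) (c : ℝ)
    (hall : ∀ χ : ι → Bool, ((inBox E (sub S R χ)).card : ℝ) ≤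
          c * ∏ i, ((sub S R χ i).card : ℝ)) :
    ((inBox E S).card : ℝ) ≤ c * (∏ i, ((S i).card : ℝ) - ∏ i, ((R i).card : ℝ)) := by
  have hsplit : ((inBox E S).card : ℝ) = ∑ χ : ι → Bool, ((inBox E (sub S R χ)).card : ℝ) := by
    rw [inBox_split E S R hRS]; push_cast; rfl
  rw [hsplit, sub_prod S R hRS]
  rw [← Finset.add_sum_erase _ _ (Finset.mem_univ (fun _ : ι => true)), sub_true, htop]
  rw [← Finset.add_sum_erase (a := (fun _ : ι => true)) univ
    (fun χ : ι → Bool => ∏ i, ((sub S R χ i).card : ℝ)) (Finset.mem_univ _)]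
  rw [sub_true, add_sub_cancel_left, Nat.cast_zero, zero_add, Finset.mul_sum]
  exact Finset.sum_le_sum fun χ _ => hall χ

omit [DecidableEq ι] [DecidableEq T] in
theorem prod_ge (S R : ι → Finset T) (ε : ℝ) (hε : 0 < ε)
    (hRge : ∀ i, ε * ((S i).card : ℝ) ≤ (R i).card) :
    ε ^ Fintype.card ι * ∏ i, ((S i).card : ℝ) ≤ ∏ i, ((R i).card : ℝ) := by
  have : ε ^ Fintype.card ι * ∏ i, ((S i).card : ℝ) = ∏ i, (ε * ((S i).card : ℝ)) := by
    rw [Finset.prod_mul_distrib, Finset.prod_const, Finset.card_univ]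
  rw [this]
  exact Finset.prod_le_prod (fun i _ => mul_nonneg hε.le (Nat.cast_nonneg _)) fun i _ => hRge i

theorem sub_card_ge (S R : ι → Finset T) (hRS : ∀ i, R i ⊆ S i) (ε : ℝ) (hε : 0 < ε)
    (hε4 : ε ≤ 1 / 4) (χ : ι → Bool) (i : ι) (hspos : (0 : ℝ) < (S i).card)
    (hR2 : (R i).card = ⌈ε * (S i).card⌉₊) (hne : (sub S R χ i).Nonempty) :
    ε * (S i).card ≤ (sub S R χ i).card := by
  by_cases hc : χ i = true
  · have : sub S R χ i = R i := by unfold sub; rw [if_pos hc]
    rw [this, hR2]; exact Nat.le_ceil _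
  · have h4 : sub S R χ i = S i \ R i := by unfold sub; rw [if_neg hc]
    have h5 : 1 ≤ (sub S R χ i).card := hne.card_pos
    rw [h4] at h5 ⊢
    rw [Finset.card_sdiff_of_subset (hRS i)] at h5 ⊢
    have h6 : ((R i).card : ℝ) < ε * (S i).card + 1 := by
      rw [hR2]; exact Nat.ceil_lt_add_one (mul_pos hε hspos).le
    have h7 : 2 ≤ (S i).card := by
      have : 1 ≤ (R i).card := by
        rw [hR2]
        exact Nat.one_le_iff_ne_zero.2 (by
          have := Nat.ceil_pos.2 (mul_pos hε hspos); omega)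
      omega
    have h8 : (2 : ℝ) ≤ (S i).card := by exact_mod_cast h7
    rw [Nat.cast_sub (by omega)]
    nlinarith

/-- **Regular boxes.** -/
theorem exists_regular (E : Finset (ι → T)) (ε : ℝ) (hε : 0 < ε) (hε4 : ε ≤ 1 / 4) (K : ℕ) :
    ∀ (ρ : ℝ), 0 < ρ → 1 < ρ * (1 + ε ^ Fintype.card ι) ^ K →
    ∀ S : ι → Finset T, (∀ i, (S i).Nonempty) →
      ρ * ∏ i, ((S i).card : ℝ) ≤ (inBox E S).card →
    ∃ S' : ι → Finset T, (∀ i, S' i ⊆ S i) ∧ (∀ i, (S' i).Nonempty) ∧
      (∀ i, ε ^ K * (S i).card ≤ (S' i).card) ∧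
      ∀ S'' : ι → Finset T, (∀ i, S'' i ⊆ S' i) → (∀ i, ε * (S' i).card ≤ (S'' i).card) →
        ∃ a ∈ E, ∀ i, a i ∈ S'' i := by
  induction K with
  | zero =>
    intro ρ _ h1 S hS h2
    exfalso
    have h3 : ((inBox E S).card : ℝ) ≤ ∏ i, ((S i).card : ℝ) := by
      exact_mod_cast inBox_card_le E S
    have h4 : 0 < ∏ i, ((S i).card : ℝ) :=
      Finset.prod_pos fun i _ => by exact_mod_cast (hS i).card_pos
    simp only [pow_zero, mul_one] at h1
    nlinarith
  | succ K ih =>
    intro ρ hρ h1 S hS h2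
    have hη0 : 0 < ε ^ Fintype.card ι := pow_pos hε _
    by_cases hreg : ∀ S'' : ι → Finset T, (∀ i, S'' i ⊆ S i) →
        (∀ i, ε * (S i).card ≤ (S'' i).card) → ∃ a ∈ E, ∀ i, a i ∈ S'' i
    · refine ⟨S, fun i => Finset.Subset.refl _, hS, fun i => ?_, hreg⟩
      have h3 : ε ^ (K + 1) ≤ 1 := pow_le_one₀ hε.le (by linarith)
      have h4 : (0 : ℝ) ≤ (S i).card := Nat.cast_nonneg _
      nlinarith
    push Not at hreg
    obtain ⟨S'', hsub, hsize, hno⟩ := hreg
    have hR : ∀ i, ∃ R : Finset T, R ⊆ S'' i ∧ R.card = ⌈ε * (S i).card⌉₊ := by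
      intro i
      apply Finset.exists_subset_card_eq
      exact Nat.ceil_le.2 (hsize i)
    choose R hR1 hR2 using hR
    have hRS : ∀ i, R i ⊆ S i := fun i => (hR1 i).trans (hsub i)
    have hspos : ∀ i, (0 : ℝ) < (S i).card := fun i => by exact_mod_cast (hS i).card_pos
    have hRge : ∀ i, ε * (S i).card ≤ (R i).card := by
      intro i; rw [hR2 i]; exact Nat.le_ceil _
    by_cases hex : ∃ χ : ι → Bool, (∀ i, (sub S R χ i).Nonempty) ∧
        ρ * (1 + ε ^ Fintype.card ι) * ∏ i, ((sub S R χ i).card : ℝ) ≤ (inBox E (sub S R χ)).card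
    · obtain ⟨χ, hχ1, hχ2⟩ := hex
      obtain ⟨S', hS1, hS2, hS3, hS4⟩ := ih (ρ * (1 + ε ^ Fintype.card ι)) (by positivity)
        (by rw [pow_succ] at h1; nlinarith [h1]) (sub S R χ) hχ1 hχ2
      have hsubS : ∀ i, sub S R χ i ⊆ S i := by
        intro i
        unfold sub
        split_ifs
        · exact hRS i
        · exact Finset.sdiff_subset
      refine ⟨S', fun i => (hS1 i).trans (hsubS i), hS2, fun i => ?_, hS4⟩
      have h3 := sub_card_ge S R hRS ε hε hε4 χ i (hspos i) (hR2 i) (hχ1 i)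
      calc ε ^ (K + 1) * (S i).card = ε ^ K * (ε * (S i).card) := by ring
        _ ≤ ε ^ K * (sub S R χ i).card := mul_le_mul_of_nonneg_left h3 (pow_nonneg hε.le _)
        _ ≤ (S' i).card := hS3 i
    · exfalso
      push Not at hex
      have hall : ∀ χ : ι → Bool, ((inBox E (sub S R χ)).card : ℝ) ≤
          ρ * (1 + ε ^ Fintype.card ι) * ∏ i, ((sub S R χ i).card : ℝ) := by
        intro χ
        by_cases hne : ∀ i, (sub S R χ i).Nonempty
        · exact (hex χ hne).le
        · push Not at hne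
          obtain ⟨i, hi⟩ := hne
          have h3 : inBox E (sub S R χ) = ∅ := by
            rw [Finset.eq_empty_iff_forall_notMem]
            intro a ha
            have := (mem_inBox.1 ha).2 i
            rw [hi] at this
            exact absurd this (Finset.notMem_empty _)
          rw [h3, Finset.card_empty, Nat.cast_zero]
          have : 0 ≤ ∏ i, ((sub S R χ i).card : ℝ) := Finset.prod_nonneg fun _ _ => Nat.cast_nonneg _
          exact mul_nonneg (mul_nonneg hρ.le (by linarith)) this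
      have htop : (inBox E R).card = 0 := by
        rw [Finset.card_eq_zero, Finset.eq_empty_iff_forall_notMem]
        intro a ha
        obtain ⟨h3, h4⟩ := mem_inBox.1 ha
        obtain ⟨i, hi⟩ := hno a h3
        exact hi (hR1 i (h4 i))
      have hle := increment E S R hRS htop _ hall
      have hRprod := prod_ge S R ε hε hRge
      have hSpos : 0 < ∏ i, ((S i).card : ℝ) := Finset.prod_pos fun i _ => hspos i
      generalize ∏ i, ((S i).card : ℝ) = X at *
      generalize ∏ i, ((R i).card : ℝ) = Y at *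
      generalize ε ^ Fintype.card ι = η at *
      have h6 : ρ * (1 + η) * (X - Y) ≤ ρ * (1 + η) * ((1 - η) * X) := by
        apply mul_le_mul_of_nonneg_left _ (by positivity)
        linarith
      have h7 : ρ * (1 + η) * ((1 - η) * X) < ρ * X := by
        have h8 : ρ * (1 + η) * ((1 - η) * X) = ρ * X - ρ * η ^ 2 * X := by ring
        rw [h8]
        have : 0 < ρ * η ^ 2 * X := by positivity
        linarith
      linarith

end Pool.Agent.V11135.Sel
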