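import Pool.Agent.V11135.Sel.Grid

/-!
# The coloured selection lemma at scale `h`
-/

set_option autoImplicit false

namespace Pool.Agent.V11135.Sel

open Finset Function Set

variable {d : ℕ} {T : Type} [Fintype T] [Nonempty T]

/-- neighbours of a cell -/
def nb (δ : Fin d → Fin 3) (m : Fin d → ℤ) : Fin d → ℤ := fun i => m i + (δ i : ℤ) - 1

theorem exists_nb {m m' : Fin d → ℤ} (h : ∀ i, |m i - m' i| ≤ 1) : ∃ δ, nb δ m' = m := by
  have : ∀ i, ∃ e : Fin 3, m' i + (e : ℤ) - 1 = m i := by
    intro i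
    have h1 := abs_le.1 (h i)
    have h2 : 0 ≤ m i - m' i + 1 := by linarith
    have h3 : m i - m' i + 1 < 3 := by linarith
    refine ⟨⟨(m i - m' i + 1).toNat, by omega⟩, ?_⟩
    simp only
    omega
  choose δ hδ using this
  exact ⟨δ, funext hδ⟩

/-- a tuple is bad for the cell `m` at scale `h` -/
def Bad (Q : Fin (d + 1) → T → (Fin d → ℝ)) (h : ℝ) (m : Fin d → ℤ) (a : Fin (d + 1) → T) : Prop :=
  ∃ q ∈ convexHull ℝ (Set.range fun j => Q j (a j)), ∀ i, |q i - h * m i| ≤ h

open Classical in
/-- For every scale `h > 0` there is a cell for which a positive fraction of the tuples is bad. -/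
theorem exists_cell (hd : 0 < d) (Q : Fin (d + 1) → T → (Fin d → ℝ)) {h : ℝ} (hh : 0 < h) :
    ∃ m : Fin d → ℤ, (Fintype.card T) ^ (d + 1) ≤
      (3 ^ d) ^ d * (univ.filter fun a : Fin (d + 1) → T => Bad Q h m a).card := by
  by_contra hne
  push Not at hne
  -- the choice
  obtain ⟨x, hx⟩ := exists_choice d (nb : (Fin d → Fin 3) → (Fin d → ℤ) → (Fin d → ℤ))
    (fun m a => if Bad Q h m a then 1 else 0) (by
      intro m
      have h1 := hne m
      rw [Finset.card_filter] at h1
      simpa [Fintype.card_fun] using h1)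
  have hgood : ∀ m : ℕ → (Fin d → ℤ), (∀ j, j < d → ∃ δ, nb δ (m (j + 1)) = m j) →
      ¬ Bad Q h (m 0) (fun j => x j.val (m j.val)) := by
    intro m hm hbad
    have := hx m hm
    simp only [hbad, if_true] at this
    exact one_ne_zero this
  -- the values at the cells
  set G : (Fin d → ℤ) → (Fin d → ℝ) := fun m =>
    Q ⟨cdim m, Nat.lt_succ_of_le (cdim_le m)⟩ (x (cdim m) m) with hG
  obtain ⟨R, hR⟩ : ∃ R : ℝ, ∀ j t, ‖Q j t‖ ≤ R := by
    obtain ⟨R, hR⟩ := (Set.finite_range fun q : Fin (d + 1) × T => ‖Q q.1 q.2‖).bddAbove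
    exact ⟨R, fun j t => hR ⟨(j, t), rfl⟩⟩
  have hR0 : 0 ≤ R := (norm_nonneg _).trans (hR 0 (Classical.arbitrary T))
  -- the box
  obtain ⟨L, hL⟩ := exists_nat_gt (R / h + 1)
  set box : Finset (Fin d → ℤ) := Fintype.piFinset fun _ => Finset.Icc (-(L : ℤ)) L with hbox
  have hin : ∀ (y : Fin d → ℝ), (∀ i, |y i| ≤ R) → ∀ m : Fin d → ℤ,
      (∀ i, |y i / h - m i| < 1) → m ∈ box := by
    intro y hy m hm
    rw [hbox, Fintype.mem_piFinset]
    intro i
    have h1 := hm i
    have h2 : |y i / h| ≤ R / h := by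
      rw [abs_div, abs_of_pos hh]
      exact div_le_div_of_nonneg_right (hy i) hh.le
    have h3 : |(m i : ℝ)| < L := by
      have : (m i : ℝ) = y i / h - (y i / h - m i) := by ring
      rw [this]
      calc |y i / h - (y i / h - m i)| ≤ |y i / h| + |y i / h - m i| := abs_sub _ _
        _ < L := by linarith
    rw [Finset.mem_Icc]
    have h4 := abs_lt.1 h3
    constructor
    · have : (-(L : ℤ) : ℝ) ≤ m i := by push_cast; linarith [h4.1]
      exact_mod_cast this
    · have : (m i : ℝ) ≤ L := by linarith [h4.2]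
      exact_mod_cast this
  set cl : (Fin d → ℝ) → (Fin d → ℝ) := fun y i => max (-R) (min R (y i)) with hcl
  have hcl1 : ∀ y i, |cl y i| ≤ R := by
    intro y i
    rw [hcl, abs_le]
    constructor
    · exact le_max_left _ _
    · exact max_le (by linarith) (min_le_left _ _)
  have hclc : Continuous cl := by
    rw [hcl]
    exact continuous_pi fun i => continuous_const.max (continuous_const.min (continuous_apply i))
  set S : (Fin d → ℝ) → ℝ := fun y => ∑ m ∈ box, wt m (fun i => cl y i / h) with hS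
  have hcont : ∀ m : Fin d → ℤ, Continuous fun y => wt m (fun i => cl y i / h) := by
    intro m
    refine (continuous_wt m).comp ?_
    exact continuous_pi fun i => ((continuous_apply i).comp hclc).div_const h
  have hSc : Continuous S := continuous_finsetSum _ fun m _ => hcont m
  have hSpos : ∀ y, 0 < S y := by
    intro y
    obtain ⟨m, hm1, hm2⟩ := exists_wt_pos (fun i => cl y i / h)
    have hmem : m ∈ box := hin (cl y) (hcl1 y) m hm2
    exact lt_of_lt_of_le hm1 (Finset.single_le_sum (f := fun m => wt m (fun i => cl y i / h))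
      (fun m _ => wt_nonneg m _) hmem)
  set g : (Fin d → ℝ) → (Fin d → ℝ) := fun y =>
    (S y)⁻¹ • ∑ m ∈ box, wt m (fun i => cl y i / h) • G m with hg
  have hgc : Continuous g := by
    refine (hSc.inv₀ fun y => (hSpos y).ne').smul ?_
    exact continuous_finsetSum _ fun m _ => (hcont m).smul continuous_const
  have hgn : ∀ y, ‖g y‖ ≤ R := by
    intro y
    have h1 : ‖∑ m ∈ box, wt m (fun i => cl y i / h) • G m‖ ≤ S y * R := by
      rw [hS, Finset.sum_mul]
      refine (norm_sum_le _ _).trans (Finset.sum_le_sum fun m _ => ?_)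
      rw [norm_smul, Real.norm_of_nonneg (wt_nonneg m _)]
      exact mul_le_mul_of_nonneg_left (hR _ _) (wt_nonneg m _)
    rw [hg]
    simp only
    rw [norm_smul, norm_inv, Real.norm_of_nonneg (hSpos y).le]
    rw [inv_mul_le_iff₀ (hSpos y)]
    exact h1
  obtain ⟨y, hy⟩ := Pool.Agent.Helper133.Brouwer.brouwer g hgc R hgn
  have hyR : ∀ i, |y i| ≤ R := by
    intro i
    have h1 : ‖y‖ ≤ R := by rw [← hy]; exact hgn y
    exact (norm_le_pi_norm y i).trans h1
  have hcly : cl y = y := by
    funext i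
    have h1 := abs_le.1 (hyR i)
    rw [hcl]
    simp only
    rw [min_eq_right h1.2, max_eq_right h1.1]
  set u : Fin d → ℝ := fun i => y i / h with hu
  obtain ⟨m0, hm0, hm0'⟩ := exists_wt_pos u
  -- the chain
  set mm : ℕ → (Fin d → ℤ) := fun j =>
    if hj : ∃ m, 0 < wt m u ∧ cdim m = j then hj.choose else m0 with hmm
  have hmmpos : ∀ j, 0 < wt (mm j) u := by
    intro j
    rw [hmm]
    simp only
    split_ifs with hj
    · exact hj.choose_spec.1
    · exact hm0
  have hmmdim : ∀ m, 0 < wt m u → mm (cdim m) = m := by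
    intro m hm
    have hj : ∃ m', 0 < wt m' u ∧ cdim m' = cdim m := ⟨m, hm, rfl⟩
    rw [hmm]
    simp only
    rw [dif_pos hj]
    exact (wt_compare hd hj.choose_spec.1 hm).2 hj.choose_spec.2
  have hchain : ∀ j, j < d → ∃ δ, nb δ (mm (j + 1)) = mm j := by
    intro j _
    exact exists_nb (wt_compare hd (hmmpos j) (hmmpos (j + 1))).1
  apply hgood mm hchain
  refine ⟨y, ?_, ?_⟩
  · -- `y` is in the hull
    have h1 : y = (S y)⁻¹ • ∑ m ∈ box, wt m (fun i => cl y i / h) • G m := by
      rw [hg] at hy; exact hy.symm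
    have h2 : (fun i => cl y i / h) = u := by rw [hcly]
    have h3 : y = ∑ m ∈ box.filter (fun m => 0 < wt m u), ((S y)⁻¹ * wt m u) • G m := by
      rw [h2] at h1
      conv_lhs => rw [h1]
      rw [Finset.smul_sum, Finset.sum_filter]
      refine Finset.sum_congr rfl fun m _ => ?_
      split_ifs with hp
      · rw [smul_smul]
      · have : wt m u = 0 := le_antisymm (not_lt.1 hp) (wt_nonneg m u)
        rw [this]; simp
    have h4 : ∑ m ∈ box.filter (fun m => 0 < wt m u), ((S y)⁻¹ * wt m u) = 1 := by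
      have h5 : S y = ∑ m ∈ box.filter (fun m => 0 < wt m u), wt m u := by
        rw [hS]
        simp only
        rw [h2, Finset.sum_filter]
        refine Finset.sum_congr rfl fun m _ => ?_
        split_ifs with hp
        · rfl
        · exact le_antisymm (not_lt.1 hp) (wt_nonneg m u)
      rw [← Finset.mul_sum, ← h5]
      exact inv_mul_cancel₀ (hSpos y).ne'
    rw [h3]
    refine (convex_convexHull ℝ _).sum_mem ?_ h4 ?_
    · intro m _
      exact mul_nonneg (inv_nonneg.2 (hSpos y).le) (wt_nonneg m u)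
    · intro m hm
      have hm' := (Finset.mem_filter.1 hm).2
      apply subset_convexHull
      refine ⟨⟨cdim m, Nat.lt_succ_of_le (cdim_le m)⟩, ?_⟩
      simp only
      rw [hmmdim m hm']
  · intro i
    obtain ⟨s, hs0, hs1, hs⟩ := act_of_wt_pos hd (hmmpos 0)
    have h1 := act_lt_one hs0 hs1 hs i
    have h2 : y i - h * (mm 0 i : ℝ) = h * (u i - mm 0 i) := by
      rw [hu]; field_simp
    rw [h2, abs_mul, abs_of_pos hh]
    nlinarith [h1]

end Pool.Agent.V11135.Sel
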